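import Pool.Agent.Lib.MP_2d7a7c_co.PQ.Pair

/-! Peaceable queens, project PQ (helper45): further inequalities for antipodal pairs. -/

set_option autoImplicit false

namespace Pool.Agent.Lib.MP_2d7a7c_co.PQ

/-- The mixed certificate for four antipodal pairs. -/
lemma four_mixed {N l e g1 g2 : ℤ} {X1 X1' Y1 Y1' Y2 Y2' X2 X2' : ℤ → ℤ}
    (hN : N = 2 * (l + e)) (hl : 0 ≤ l) (he : 0 ≤ e) (hg1 : 0 ≤ g1) (hg2 : 0 ≤ g2)
    (hg1' : g1 + l ≤ N) (hg2' : g2 + l ≤ N)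
    (zX1' : X1' 0 = 0) (zX2 : X2 0 = 0) (zX2' : X2' 0 = 0) (zX1 : X1 0 = 0)
    (zY1 : Y1 0 = 0) (zY1' : Y1' 0 = 0) (zY2 : Y2 0 = 0) (zY2' : Y2' 0 = 0)
    (lX1 : Lip X1) (lX1' : Lip X1') (lX2 : Lip X2)
    (lY1 : Lip Y1) (lY1' : Lip Y1') (lY2 : Lip Y2) (lY2' : Lip Y2')
    (o1 : Opp (g1 + l) X1 Y2) (o2 : Opp (N + g1) X1 Y1') (o3 : Opp (N + g1 + l) X1 Y2')
    (o6 : Opp (N - g2) X2 Y2') (p1 : Opp (g2 + l) X2' Y1') (p2 : Opp (N + g2) X2' Y2)
    (p5 : Opp g2 X2 Y2) (p6 : Opp (N - g1) X1' Y1) :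
    X1 N + X1' N + Y1 N + Y1' N + Y2 N + Y2' N + X2 N + X2' N ≤ 4 * N + 2 * g1 + ff e g2 := by
  obtain ⟨a2, b2, w2, d1, d2, d3, d4, d5, d6, d7, d8, d9⟩ := regime e g2 he hg2
  have m2 := o2.use g1 (g1 + (l - w2)) (N - (l - w2)) N (by omega) (by ring) (by ring)
  have m3 := o1.use (g1 + (l - w2)) (g1 + l) 0 w2 (by omega) (by ring) (by ring)
  have m8 := o6.use b2 (N - g2) 0 (N - g2 - b2) (by omega) (by ring) (by ring)
  have r1 := p6.use 0 (N - g1) 0 (N - g1) (by omega) (by ring) (by ring)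
  have r2 := p5.use 0 a2 (g2 - a2) g2 (by omega) (by ring) (by ring)
  have r3 := p2.use g2 N g2 N (by omega) (by ring) (by ring)
  have r4 := p1.use 0 g2 l (l + g2) (by omega) (by ring) (by ring)
  have g1a := lX1 0 g1 (by omega)
  have g1b := lX1' (N - g1) N (by omega)
  have g2a := lX2 a2 b2 d2
  have g2b := lX2 (N - g2) N (by omega)
  have h1 := lY1 (N - g1) N (by omega)
  have h2 := lY2 w2 (g2 - a2) (by omega)
  have h3 := lY1' (l + g2) (N - (l - w2)) (by omega)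
  by_cases hA : l + g2 + b2 ≤ N - g1
  · have m4 := o3.use (g1 + l) (g1 + (l + g2 + b2)) (N - g2 - b2) N (by omega) (by ring) (by ring)
    have m5 := o2.use (g1 + (l + g2 + b2)) N g1 (N - (l + g2 + b2)) (by omega) (by ring) (by ring)
    have h4 := lY1' 0 g1 (by omega)
    have h5 := lY1' (N - (l + g2 + b2)) l (by omega)
    linarith
  · have m4 := o3.use (g1 + l) N (l + g1) N (by omega) (by ring) (by ring)
    have h4 := lY1' 0 l (by omega)
    have h5 := lY2' (N - g2 - b2) (l + g1) (by omega)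
    linarith

/-- Three antipodal pairs, the middle one counted twice. -/
lemma three {N g1 g2 : ℤ} {X1 X1' Y Y' X2 X2' : ℤ → ℤ}
    (hg1 : 0 ≤ g1) (hg2 : 0 ≤ g2) (hle : g2 ≤ g1) (hg1' : 2 * g1 ≤ N)
    (zX1' : X1' 0 = 0) (zX2 : X2 0 = 0) (zX2' : X2' 0 = 0) (zX1 : X1 0 = 0)
    (zY : Y 0 = 0) (zY' : Y' 0 = 0)
    (lX1' : Lip X1') (lX2 : Lip X2) (lY : Lip Y) (lY' : Lip Y')
    (o1 : Opp g1 X1 Y) (o2 : Opp (N + g1) X1 Y') (o3 : Opp (N + g2) X2' Y) (o4 : Opp g2 X2' Y')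
    (o5 : Opp (N - g2) X2 Y') (o6 : Opp (N - g1) X1' Y) :
    X1 N + X1' N + 2 * Y N + 2 * Y' N + X2 N + X2' N ≤ 4 * N + 2 * g1 := by
  have m1 := o1.use 0 g1 0 g1 (by omega) (by ring) (by ring)
  have m2 := o2.use g1 N g1 N (by omega) (by ring) (by ring)
  have m3 := o3.use g2 N g2 N (by omega) (by ring) (by ring)
  have m4 := o4.use 0 g2 0 g2 (by omega) (by ring) (by ring)
  have m5 := o5.use 0 (N - g2) 0 (N - g2) (by omega) (by ring) (by ring)
  have m6 := o6.use (N - g1 - g2) (N - g1) 0 g2 (by omega) (by ring) (by ring)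
  have m7 := o6.use 0 (N - 2 * g1) g1 (N - g1) (by omega) (by ring) (by ring)
  have h1 := lX1' (N - 2 * g1) (N - g1 - g2) (by omega)
  have h2 := lX1' (N - g1) N (by omega)
  have h3 := lX2 (N - g2) N (by omega)
  have h4 := lY (N - g1) N (by omega)
  have h5 := lY' g2 g1 (by omega)
  have h6 := lY' (N - g2) N (by omega)
  linarith

/-- The cap: a black column against a pair of white columns (first position). -/
lemma cap_a {N D D' : ℤ} {u u' y : ℤ → ℤ} (hD : 0 ≤ D) (hD' : 0 ≤ D') (h : D + D' = N)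
    (zu : u 0 = 0) (zu' : u' 0 = 0) (zy : y 0 = 0) (lu : Lip u) (lu' : Lip u') (ly : Lip y)
    (h1 : Opp D u y) (h2 : Opp D' u' y) : u N + u' N + 2 * y N ≤ 3 * N := by
  have a1 := h1.use 0 D 0 D (by omega) (by ring) (by ring)
  have a2 := h2.use 0 D' 0 D' (by omega) (by ring) (by ring)
  have b1 := lu D N (by omega)
  have b2 := lu' D' N (by omega)
  have b3 := ly D N (by omega)
  have b4 := ly D' N (by omega)
  linarith

/-- The cap, second position. -/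
lemma cap_b {N D : ℤ} {u u' y : ℤ → ℤ} (hD : 0 ≤ D) (hDN : D ≤ N)
    (zu : u 0 = 0) (zu' : u' 0 = 0) (zy : y 0 = 0) (lu : Lip u) (lu' : Lip u') (ly : Lip y)
    (h1 : Opp D u y) (h2 : Opp (N + D) u' y) : u N + u' N + 2 * y N ≤ 3 * N := by
  have a1 := h1.use 0 D 0 D (by omega) (by ring) (by ring)
  have a2 := h2.use D N D N (by omega) (by ring) (by ring)
  have b1 := lu D N (by omega)
  have b2 := lu' 0 D (by omega)
  have b3 := ly 0 N (by omega)
  linarith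

end Pool.Agent.Lib.MP_2d7a7c_co.PQ
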