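import Pool.Agent.Lib.MP_2d7a7c_co.PQ.Level
import Pool.Agent.Lib.MP_2d7a7c_co.PQ.Pair2

/-! Peaceable queens, project PQ (helper45): the level lemma for sets of different sizes. -/

set_option autoImplicit false

namespace Pool.Agent.Lib.MP_2d7a7c_co.PQ

/-- Bounds for four antipodal pairs. -/
def Four2 (K : ℤ) (G : ℤ → ℤ) (P Q : Finset ℤ) : Prop :=
  ∀ x1 ∈ P, ∀ y1 ∈ Q, ∀ y2 ∈ Q, ∀ x2 ∈ P, x1 < y1 → y1 ≤ y2 → y2 < x2 → y2 - y1 ≤ K →
    G x1 + G y1 + G y2 + G x2 ≤ ff (K - (y2 - y1)) (y1 - x1) + ff (K - (y2 - y1)) (x2 - y2) ∧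
    G x1 + G y1 + G y2 + G x2 ≤ 2 * (y1 - x1) + ff (K - (y2 - y1)) (x2 - y2) ∧
    G x1 + G y1 + G y2 + G x2 ≤ ff (K - (y2 - y1)) (y1 - x1) + 2 * (x2 - y2)

/-- Bounds for three antipodal pairs. -/
def Three (N : ℤ) (G : ℤ → ℤ) (P Q : Finset ℤ) : Prop :=
  ∀ x1 ∈ P, ∀ y ∈ Q, ∀ x2 ∈ P, x1 < y → y < x2 → 2 * max (y - x1) (x2 - y) ≤ N →
    G x1 + 2 * G y + G x2 ≤ 2 * max (y - x1) (x2 - y)

lemma ff_far {e g : ℤ} (h : e ≤ g) : ff e g = g := by unfold ff; omega

lemma ff_near {e g : ℤ} (h : g ≤ e) : ff e g = 2 * e - g := by unfold ff; omega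

lemma ar1 {t h g1 g2 : ℤ} (ht : 1 ≤ t) (r1 : 2 * t ≤ g1 + g2) (hh : g1 + g2 - 2 ≤ h) :
    3 * t ≤ 2 * h + 6 := by linarith

lemma ar2 {t h e g1 g a n : ℤ} (_h1 : e ≤ g1) (h2 : e ≤ g) (ha : a < e) (_hn : n ≤ a)
    (hte : e ≤ t) (r1 : 2 * t ≤ g1 + g) (r3 : 2 * t ≤ g1 + 2 * n)
    (hh : g1 + g - a + n - 3 ≤ h) : 3 * t ≤ 2 * h + 6 := by linarith

lemma ar3 {t h e g1 G n : ℤ} (h1 : e ≤ g1) (hG : G < e) (hte : e ≤ t)
    (r : 2 * t ≤ g1 + 2 * n) (hh : t + g1 - G + n - 3 ≤ h) : 3 * t ≤ 2 * h + 6 := by linarith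

lemma ar4 {t h e g1 g2 a1 a2 n1 n2 : ℤ} (hte : e ≤ t) (r1 : 2 * t ≤ g1 + g2)
    (r2 : 2 * t ≤ 4 * e - a1 - a2) (r3 : 2 * t ≤ g1 + 2 * n2) (r4 : 2 * t ≤ 2 * n1 + g2)
    (hh : g1 + g2 - a1 - a2 + n1 + n2 - 4 ≤ h) :
    3 * t ≤ 2 * h + 6 ∨ 9 * t ≤ 2 * h + 7 * e + 8 := by
  by_cases hs : 2 * (a1 + a2) ≤ 3 * t - 2
  · left; linarith
  · right; push Not at hs; linarith

lemma ar5 {t h e g1 a1 n1 G n2 : ℤ} (hte : e ≤ t) (h1 : e ≤ g1)
    (r2 : 2 * t ≤ 4 * e - a1 - G) (r3 : 2 * t ≤ g1 + 2 * n2) (r4 : t ≤ 2 * n1)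
    (hh : t + g1 - a1 + n1 - G + n2 - 4 ≤ h) :
    3 * t ≤ 2 * h + 6 ∨ 9 * t ≤ 2 * h + 7 * e + 8 := by
  by_cases hs : 2 * (a1 + G) ≤ 2 * t + g1 - 2
  · left; linarith
  · right; push Not at hs; linarith

lemma ar6 {K t h e G1 n1 G2 n2 : ℤ} (hte : e ≤ t) (heK : e ≤ K) (g1 : n1 ≤ G1) (g1' : G1 < e)
    (g2 : n2 ≤ G2) (g2' : G2 < e) (r : 2 * t ≤ 4 * e - G1 - G2) (d1 : t ≤ 2 * n1)
    (d2 : t ≤ 2 * n2) (q1 : t ≤ n1 ∨ t ≤ n2 + (K - e)) (q2 : t ≤ n1 + (K - e) ∨ t ≤ n2)
    (hh : K + e - (G1 + G2) + n1 + n2 - 3 ≤ h) :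
    3 * t ≤ 2 * h + 6 ∨ 9 * t ≤ 2 * h + 7 * e + 8 := by
  right
  have q1' : t ≤ n2 + (K - e) := by omega
  have q2' : t ≤ n1 + (K - e) := by omega
  by_cases hs : 3 * e ≤ 2 * K + 2
  · linarith
  · push Not at hs; linarith

set_option maxHeartbeats 16000000 in
/-- The level lemma when the leftmost point is in `P`. -/
lemma level_aux2 {N K t : ℤ} {P Q : Finset ℤ} {G : ℤ → ℤ} (hN : N = 2 * K)
    (hP : ∀ x ∈ P, 0 ≤ x ∧ x < N) (hQ : ∀ x ∈ Q, 0 ≤ x ∧ x < N)
    (hPQ : ∀ x ∈ P, x ∉ Q) {p q : ℤ} (hp : (P.card : ℤ) = p) (hq : (Q.card : ℤ) = q)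
    (hQne : Q.Nonempty) (ht : 1 ≤ t) (hG : ∀ x ∈ P, ∀ y ∈ Q, t ≤ G x + G y)
    (two : Two N G P Q) (four : Four2 K G P Q) (three : Three N G P Q)
    (hleft : ∃ x0 ∈ P, ∀ y ∈ Q, x0 < y) :
    3 * t ≤ 2 * (N - p - q) + 6 ∨ 9 * t ≤ 2 * (N - p - q) + 7 * (K - p) + 15 ∨
      9 * t ≤ 2 * (N - p - q) + 7 * (K - q) + 15 := by
  classical
  obtain ⟨x0, hx0, hx0'⟩ := hleft
  obtain ⟨q0, hq0⟩ := hQne
  have T1 : ∀ x ∈ P, ∀ y ∈ Q, t ≤ 2 * (x - y) ∨ t ≤ 2 * (y - x) := by
    intro x hx y hy
    have h1 := (two x hx y hy).1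
    have h2 := hG x hx y hy
    rcases abs_cases (x - y) with ⟨h3, -⟩ | ⟨h3, -⟩
    · left; omega
    · right; omega
  have T2 : ∀ x ∈ P, ∀ y ∈ Q, t ≤ N - (x - y) ∧ t ≤ N - (y - x) := by
    intro x hx y hy
    have h1 := (two x hx y hy).2
    have h2 := hG x hx y hy
    have h3 := le_abs_self (x - y)
    have h4 := neg_le_abs (x - y)
    constructor <;> omega
  obtain ⟨y1, hy1, -, my1⟩ := exists_min (S := Q) (fun _ => True) ⟨q0, hq0, trivial⟩
  obtain ⟨y2, hy2, -, my2⟩ := exists_max (S := Q) (fun _ => True) ⟨q0, hq0, trivial⟩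
  have hy12 : y1 ≤ y2 := my1 y2 hy2 trivial
  obtain ⟨x1, hx1, hx1', mx1⟩ := exists_max (S := P) (fun x => x < y1) ⟨x0, hx0, hx0' y1 hy1⟩
  obtain ⟨xm, hxm, -, mxm⟩ := exists_min (S := P) (fun _ => True) ⟨x0, hx0, trivial⟩
  obtain ⟨xM, hxM, -, mxM⟩ := exists_max (S := P) (fun _ => True) ⟨x0, hx0, trivial⟩
  have bxm := hP xm hxm
  have bxM := hP xM hxM
  have by1 := hQ y1 hy1
  have by2 := hQ y2 hy2
  have bx1 := hP x1 hx1
  have hxm1 : xm ≤ x1 := mxm x1 hx1 trivial
  have hx1M : x1 ≤ xM := mxM x1 hx1 trivial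
  set T : ℤ → ℤ := cnt (P ∪ Q) with hT
  have lT : ∀ s u, s ≤ u → T u - T s ≤ u - s := cnt_lip (P ∪ Q)
  have eT : ∀ s u, s ≤ u → (∀ x ∈ P, s ≤ x → x < u → False) →
      (∀ x ∈ Q, s ≤ x → x < u → False) → T u = T s := by
    intro s u hsu h1 h2
    refine cnt_eq (P ∪ Q) hsu fun x hx => ?_
    rcases Finset.mem_union.1 hx with hx | hx
    · exact h1 x hx
    · exact h2 x hx
  have cPQ : ((P ∪ Q).card : ℤ) = p + q := by
    rw [Finset.card_union_of_disjoint]
    · push_cast
      linarith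
    · rw [Finset.disjoint_left]
      exact fun x hx => hPQ x hx
  have T0 : T 0 = 0 := by
    refine cnt_bot _ fun x hx => ?_
    rcases Finset.mem_union.1 hx with hx | hx
    · exact (hP x hx).1
    · exact (hQ x hx).1
  have TN : T N = p + q := by
    rw [← cPQ]
    refine cnt_top _ fun x hx => ?_
    rcases Finset.mem_union.1 hx with hx | hx
    · exact (hP x hx).2
    · exact (hQ x hx).2
  have Txm : T xm = T 0 := by
    refine eT 0 xm bxm.1 (fun x hx h1 h2 => ?_) (fun x hx h1 h2 => ?_)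
    · have := mxm x hx trivial; omega
    · have := my1 x hx trivial; omega
  have E1 : T y1 = T (x1 + 1) := by
    refine eT _ _ (by omega) (fun x hx h1 h2 => ?_) (fun x hx h1 h2 => ?_)
    · have := mx1 x hx h2; omega
    · have := my1 x hx trivial; omega
  have D1 : t ≤ 2 * (y1 - x1) := by
    rcases T1 x1 hx1 y1 hy1 with h | h <;> omega
  by_cases hB : ∃ u ∈ P, y1 < u
  · -- at least two switches
    obtain ⟨x2, hx2, hx2', mx2⟩ := exists_min (S := P) (fun x => y1 < x) hB
    have bx2 := hP x2 hx2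
    have hx2M : x2 ≤ xM := mxM x2 hx2 trivial
    by_cases hB1 : ∃ l ∈ Q, x2 < l
    · -- at least three switches
      left
      obtain ⟨a2, ha2, ha2', ma2⟩ := exists_max (S := Q) (fun l => l < x2) ⟨y1, hy1, hx2'⟩
      obtain ⟨y3, hy3, hy3', my3⟩ := exists_min (S := Q) (fun l => x2 < l) hB1
      obtain ⟨a3, ha3, ha3', ma3⟩ := exists_max (S := P) (fun u => u < y3) ⟨x2, hx2, hy3'⟩
      have by3 := hQ y3 hy3
      have h1 : y1 ≤ a2 := my1 a2 ha2 trivial
      have h2 : x2 ≤ a3 := ma3 x2 hx2 hy3'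
      have E2 : T x2 = T (a2 + 1) := by
        refine eT _ _ (by omega) (fun x hx h3 h4 => ?_) (fun x hx h3 h4 => ?_)
        · have := mx2 x hx (by omega); omega
        · have := ma2 x hx h4; omega
      have E3 : T y3 = T (a3 + 1) := by
        refine eT _ _ (by omega) (fun x hx h3 h4 => ?_) (fun x hx h3 h4 => ?_)
        · have := ma3 x hx h4; omega
        · have := my3 x hx (by omega); omega
      have D2 : t ≤ 2 * (x2 - a2) := by
        rcases T1 x2 hx2 a2 ha2 with h | h <;> omega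
      have D3 : t ≤ 2 * (y3 - a3) := by
        rcases T1 a3 ha3 y3 hy3 with h | h <;> omega
      have L1 := lT 0 (x1 + 1) (by omega)
      have L2 := lT y1 (a2 + 1) (by omega)
      have L3 := lT x2 (a3 + 1) (by omega)
      have L4 := lT y3 N (by omega)
      omega
    · -- two switches
      have hQx2 : ∀ l ∈ Q, l < x2 := by
        intro l hl
        rcases lt_trichotomy l x2 with h | h | h
        · exact h
        · exact absurd (h ▸ hl) (hPQ x2 hx2)
        · exact absurd ⟨l, hl, h⟩ hB1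
      have hy2x2 : y2 < x2 := hQx2 y2 hy2
      have E2 : T x2 = T (y2 + 1) := by
        refine eT _ _ (by omega) (fun x hx h3 h4 => ?_) (fun x hx h3 h4 => ?_)
        · have := mx2 x hx (by omega); omega
        · have := my2 x hx trivial; omega
      have D2 : t ≤ 2 * (x2 - y2) := by
        rcases T1 x2 hx2 y2 hy2 with h | h <;> omega
      have hcQ : q ≤ y2 - y1 + 1 := by
        have h1 := cnt_lip Q y1 (y2 + 1) (by omega)
        have h2 : cnt Q (y2 + 1) = q := by
          rw [← hq]; exact cnt_top Q fun x hx => by have := my2 x hx trivial; omega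
        have h3 : cnt Q y1 = 0 := cnt_bot Q fun x hx => my1 x hx trivial
        omega
      have L0 := lT y1 (y2 + 1) (by omega)
      have LA := lT 0 (x1 + 1) (by omega)
      have LB := lT x2 N (by omega)
      by_cases he : K ≤ y2 - y1
      · -- the inner block is long
        right; left
        have h1 := cnt_lip P 0 (x1 + 1) (by omega)
        have h2 := cnt_lip P x2 N (by omega)
        have h3 : cnt P x2 = cnt P (x1 + 1) := by
          refine cnt_eq P (by omega) fun x hx h3 h4 => ?_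
          by_cases h5 : x < y1
          · have := mx1 x hx h5; omega
          · have h6 : x ≠ y1 := by rintro rfl; exact hPQ x hx hy1
            have := mx2 x hx (by omega); omega
        have h4 : cnt P 0 = 0 := cnt_bot P fun x hx => (hP x hx).1
        have h5 : cnt P N = p := by
          rw [← hp]; exact cnt_top P fun x hx => (hP x hx).2
        omega
      · obtain ⟨e, hee⟩ : ∃ e, e = K - (y2 - y1) := ⟨_, rfl⟩
        have he1 : 1 ≤ e := by omega
        have goal' : 3 * t ≤ 2 * (N - p - q) + 6 ∨ 9 * t ≤ 2 * (N - p - q) + 7 * e + 8 →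
            3 * t ≤ 2 * (N - p - q) + 6 ∨ 9 * t ≤ 2 * (N - p - q) + 7 * (K - p) + 15 ∨
            9 * t ≤ 2 * (N - p - q) + 7 * (K - q) + 15 := by
          rintro (h | h)
          · left; exact h
          · right; right; omega
        apply goal'
        by_cases hte' : t < e
        · right; omega
        have hte : e ≤ t := by omega
        have R : ∀ x ∈ P, ∀ z ∈ P, x < y1 → y2 < z →
            2 * t ≤ ff e (y1 - x) + ff e (z - y2) ∧ 2 * t ≤ 2 * (y1 - x) + ff e (z - y2) ∧
            2 * t ≤ ff e (y1 - x) + 2 * (z - y2) := by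
          intro x hx z hz h1 h2
          have h3 := four x hx y1 hy1 y2 hy2 z hz h1 hy12 h2 (by omega)
          rw [← hee] at h3
          have h4 := hG x hx y1 hy1
          have h5 := hG z hz y2 hy2
          omega
        have Rff : ∀ x ∈ P, ∀ z ∈ P, x < y1 → y2 < z → e ≤ y1 - x → e ≤ z - y2 →
            2 * t ≤ (y1 - x) + (z - y2) := by
          intro x hx z hz h1 h2 h3 h4
          have h5 := (R x hx z hz h1 h2).1
          rwa [ff_far h3, ff_far h4] at h5
        have Rnn : ∀ x ∈ P, ∀ z ∈ P, x < y1 → y2 < z → y1 - x ≤ e → z - y2 ≤ e →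
            2 * t ≤ 4 * e - (y1 - x) - (z - y2) := by
          intro x hx z hz h1 h2 h3 h4
          have h5 := (R x hx z hz h1 h2).1
          rw [ff_near h3, ff_near h4] at h5
          linarith
        have Rf2 : ∀ x ∈ P, ∀ z ∈ P, x < y1 → y2 < z → e ≤ y1 - x →
            2 * t ≤ (y1 - x) + 2 * (z - y2) := by
          intro x hx z hz h1 h2 h3
          have h5 := (R x hx z hz h1 h2).2.2
          rwa [ff_far h3] at h5
        have R2f : ∀ x ∈ P, ∀ z ∈ P, x < y1 → y2 < z → e ≤ z - y2 →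
            2 * t ≤ 2 * (y1 - x) + (z - y2) := by
          intro x hx z hz h1 h2 h3
          have h5 := (R x hx z hz h1 h2).2.1
          rwa [ff_far h3] at h5
        clear R
        -- T inequality
        have Tq : ∀ y ∈ Q, y1 ≤ y → t ≤ y - x1 ∨ t ≤ x2 - y := by
          intro y hy hyy
          have h1 : y ≤ y2 := my2 y hy trivial
          have h2 := three x1 hx1 y hy x2 hx2 (by omega) (by omega)
          have h3 := hG x1 hx1 y hy
          have h4 := hG x2 hx2 y hy
          have h5 := T2 x1 hx1 y hy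
          have h6 := T2 x2 hx2 y hy
          omega
        -- the left side
        have LF : (∃ x ∈ P, x < y1 ∧ e ≤ y1 - x ∧ T y1 = T (x + 1)) ∨
            (∃ x ∈ P, ∃ xa ∈ P, x < xa ∧ xa < y1 ∧ xa ≤ x1 ∧ e ≤ y1 - x ∧ y1 - xa < e ∧
              T y1 - T (x + 1) ≤ x1 - xa + 1) ∨
            y1 - xm < e := by
          by_cases hf : ∃ x ∈ P, x ≤ y1 - e
          · obtain ⟨x, hx, hxe, mx⟩ := exists_max (S := P) (fun x => x ≤ y1 - e) hf
            have hxx1 : x ≤ x1 := mx1 x hx (by omega)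
            by_cases h1 : e ≤ y1 - x1
            · left
              have h2 : x1 ≤ x := mx x1 hx1 (by omega)
              have h3 : x1 = x := by omega
              exact ⟨x, hx, by omega, by omega, by rw [E1, h3]⟩
            · right; left
              obtain ⟨xa, hxa, hxa', mxa⟩ := exists_min (S := P) (fun z => y1 - e < z)
                ⟨x1, hx1, by omega⟩
              have h2 : xa ≤ x1 := mxa x1 hx1 (by omega)
              have h4 : T xa = T (x + 1) := by
                refine eT _ _ (by omega) (fun z hz h3 h4 => ?_) (fun z hz h3 h4 => ?_)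
                · by_cases h5 : z ≤ y1 - e
                  · have := mx z hz h5; omega
                  · have := mxa z hz (by omega); omega
                · have := my1 z hz trivial; omega
              have h5 := lT xa (x1 + 1) (by omega)
              exact ⟨x, hx, xa, hxa, by omega, by omega, h2, by omega, by omega, by omega⟩
          · right; right
            by_contra h
            exact hf ⟨xm, hxm, by omega⟩
        -- the right side
        have RF : (∃ x ∈ P, y2 < x ∧ e ≤ x - y2 ∧ T x = T (y2 + 1)) ∨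
            (∃ x ∈ P, ∃ xa ∈ P, xa < x ∧ y2 < xa ∧ x2 ≤ xa ∧ e ≤ x - y2 ∧ xa - y2 < e ∧
              T x - T (y2 + 1) ≤ xa - x2 + 1) ∨
            xM - y2 < e := by
          by_cases hf : ∃ x ∈ P, y2 + e ≤ x
          · obtain ⟨x, hx, hxe, mx⟩ := exists_min (S := P) (fun x => y2 + e ≤ x) hf
            have hxx1 : x2 ≤ x := mx2 x hx (by omega)
            by_cases h1 : e ≤ x2 - y2
            · left
              have h2 : x ≤ x2 := mx x2 hx2 (by omega)
              have h3 : x2 = x := by omega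
              exact ⟨x, hx, by omega, by omega, by rw [← h3, E2]⟩
            · right; left
              obtain ⟨xa, hxa, hxa', mxa⟩ := exists_max (S := P) (fun z => z < y2 + e)
                ⟨x2, hx2, by omega⟩
              have h2 : x2 ≤ xa := mxa x2 hx2 (by omega)
              have h4 : T x = T (xa + 1) := by
                refine eT _ _ (by omega) (fun z hz h3 h4 => ?_) (fun z hz h3 h4 => ?_)
                · by_cases h5 : y2 + e ≤ z
                  · have := mx z hz h5; omega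
                  · have := mxa z hz (by omega); omega
                · have := my2 z hz trivial; omega
              have h5 := lT x2 (xa + 1) (by omega)
              exact ⟨x, hx, xa, hxa, by omega, by omega, h2, by omega, by omega, by omega⟩
          · right; right
            by_contra h
            exact hf ⟨xM, hxM, by omega⟩
        have TxM : T N = T (xM + 1) := by
          refine eT _ _ (by omega) (fun z hz h3 h4 => ?_) (fun z hz h3 h4 => ?_)
          · have := mxM z hz trivial; omega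
          · have := hQx2 z hz; omega
        have A1 := T2 xm hxm y2 hy2
        have A2 := T2 xM hxM y1 hy1
        rcases LF with ⟨x, hx, hx', hxe, hTx⟩ | ⟨x, hx, xa, hxa, hxxa, hxa1, hxa2, hxe, hxae, hTx⟩ | hLF
        · have b1 := mxm x hx trivial
          rcases RF with ⟨z, hz, hz', hze, hTz⟩ | ⟨z, hz, za, hza, hzza, hza1, hza2, hze, hzae, hTz⟩ | hRF
          · exact Or.inl (ar1 (g1 := y1 - x) (g2 := z - y2) ht (Rff x hx z hz hx' hz' hxe hze)
              (by linarith [lT 0 (x + 1) (by omega), lT z N (by have := hP z hz; omega)]))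
          · exact Or.inl (ar2 (e := e) (g1 := y1 - x) (g := z - y2) (a := za - y2) (n := x2 - y2)
              hxe hze hzae (by omega) hte (Rff x hx z hz hx' (by omega) hxe hze)
              (Rf2 x hx x2 hx2 hx' hy2x2 hxe)
              (by linarith [lT 0 (x + 1) (by omega), lT z N (by have := hP z hz; omega)]))
          · exact Or.inl (ar3 (e := e) (g1 := y1 - x) (G := xM - y2) (n := x2 - y2)
              hxe hRF hte (Rf2 x hx x2 hx2 hx' hy2x2 hxe)
              (by linarith [lT xm (x + 1) (by omega), lT x2 (xM + 1) (by omega)]))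
        · have b1 := mxm x hx trivial
          rcases RF with ⟨z, hz, hz', hze, hTz⟩ | ⟨z, hz, za, hza, hzza, hza1, hza2, hze, hzae, hTz⟩ | hRF
          · exact Or.inl (ar2 (e := e) (g1 := z - y2) (g := y1 - x) (a := y1 - xa) (n := y1 - x1)
              hze hxe hxae (by omega) hte
              (by linarith [Rff x hx z hz (by omega) hz' hxe hze])
              (by linarith [R2f x1 hx1 z hz hx1' hz' hze])
              (by linarith [lT 0 (x + 1) (by omega), lT z N (by have := hP z hz; omega)]))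
          · exact ar4 (e := e) (g1 := y1 - x) (g2 := z - y2) (a1 := y1 - xa) (a2 := za - y2)
              (n1 := y1 - x1) (n2 := x2 - y2) hte
              (Rff x hx z hz (by omega) (by omega) hxe hze)
              (Rnn xa hxa za hza hxa1 hza1 hxae.le hzae.le)
              (Rf2 x hx x2 hx2 (by omega) hy2x2 hxe)
              (R2f x1 hx1 z hz hx1' (by omega) hze)
              (by linarith [lT 0 (x + 1) (by omega), lT z N (by have := hP z hz; omega)])
          · exact ar5 (e := e) (g1 := y1 - x) (a1 := y1 - xa) (n1 := y1 - x1) (G := xM - y2)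
              (n2 := x2 - y2) hte hxe
              (Rnn xa hxa xM hxM hxa1 (by omega) hxae.le hRF.le)
              (Rf2 x hx x2 hx2 (by omega) hy2x2 hxe) D1
              (by linarith [lT xm (x + 1) (by omega), lT x2 (xM + 1) (by omega)])
        · rcases RF with ⟨z, hz, hz', hze, hTz⟩ | ⟨z, hz, za, hza, hzza, hza1, hza2, hze, hzae, hTz⟩ | hRF
          · have b2 := mxM z hz trivial
            exact Or.inl (ar3 (e := e) (g1 := z - y2) (G := y1 - xm) (n := y1 - x1)
              hze hLF hte (by linarith [R2f x1 hx1 z hz hx1' hz' hze])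
              (by linarith [lT xm (x1 + 1) (by omega), lT z (xM + 1) (by omega)]))
          · have b2 := mxM z hz trivial
            exact ar5 (e := e) (g1 := z - y2) (a1 := za - y2) (n1 := x2 - y2) (G := y1 - xm)
              (n2 := y1 - x1) hte hze
              (by linarith [Rnn xm hxm za hza (by omega) hza1 hLF.le hzae.le])
              (by linarith [R2f x1 hx1 z hz hx1' (by omega) hze]) D2
              (by linarith [lT xm (x1 + 1) (by omega), lT z (xM + 1) (by omega)])
          · exact ar6 (K := K) (e := e) (G1 := y1 - xm) (n1 := y1 - x1) (G2 := xM - y2)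
              (n2 := x2 - y2) hte (by omega) (by omega) hLF (by omega) hRF
              (Rnn xm hxm xM hxM (by omega) (by omega) hLF.le hRF.le) D1 D2
              (by rcases Tq y1 hy1 le_rfl with h | h
                  · left; exact h
                  · right; omega)
              (by rcases Tq y2 hy2 hy12 with h | h
                  · left; omega
                  · right; exact h)
              (by linarith [lT xm (x1 + 1) (by omega), lT x2 (xM + 1) (by omega)])
  · -- one switch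
    left
    have hPy1 : ∀ x ∈ P, x < y1 := by
      intro x hx
      rcases lt_trichotomy x y1 with h | h | h
      · exact h
      · exact absurd (h ▸ hy1) (hPQ x hx)
      · exact absurd ⟨x, hx, h⟩ hB
    have E2 : T N = T (y2 + 1) := by
      refine eT _ _ (by omega) (fun x hx h3 h4 => ?_) (fun x hx h3 h4 => ?_)
      · have := hPy1 x hx; omega
      · have := my2 x hx trivial; omega
    have A1 := T2 xm hxm y2 hy2
    have L1 := lT xm (x1 + 1) (by omega)
    have L2 := lT y1 (y2 + 1) (by omega)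
    omega

/-- The level lemma for sets of different sizes. -/
lemma level2 {N K t : ℤ} {P Q : Finset ℤ} {G : ℤ → ℤ} (hN : N = 2 * K)
    (hP : ∀ x ∈ P, 0 ≤ x ∧ x < N) (hQ : ∀ x ∈ Q, 0 ≤ x ∧ x < N)
    (hPQ : ∀ x ∈ P, x ∉ Q) {p q : ℤ} (hp : (P.card : ℤ) = p) (hq : (Q.card : ℤ) = q)
    (hp1 : 1 ≤ p) (hq1 : 1 ≤ q) (ht : 1 ≤ t) (hG : ∀ x ∈ P, ∀ y ∈ Q, t ≤ G x + G y)
    (two : Two N G P Q) (four : Four2 K G P Q) (four' : Four2 K G Q P)
    (three : Three N G P Q) (three' : Three N G Q P) :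
    3 * t ≤ 2 * (N - p - q) + 6 ∨ 9 * t ≤ 2 * (N - p - q) + 7 * (K - p) + 15 ∨
      9 * t ≤ 2 * (N - p - q) + 7 * (K - q) + 15 := by
  have hPne : P.Nonempty := by
    rw [← Finset.card_pos]; omega
  have hQne : Q.Nonempty := by
    rw [← Finset.card_pos]; omega
  obtain ⟨p0, hp0⟩ := hPne
  obtain ⟨q0, hq0⟩ := hQne
  obtain ⟨y1, hy1, -, my1⟩ := exists_min (S := Q) (fun _ => True) ⟨q0, hq0, trivial⟩
  obtain ⟨x1, hx1, -, mx1⟩ := exists_min (S := P) (fun _ => True) ⟨p0, hp0, trivial⟩
  rcases lt_trichotomy x1 y1 with h | h | h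
  · exact level_aux2 hN hP hQ hPQ hp hq ⟨q0, hq0⟩ ht hG two four three
      ⟨x1, hx1, fun y hy => lt_of_lt_of_le h (my1 y hy trivial)⟩
  · exact absurd (h ▸ hy1) (hPQ x1 hx1)
  · have := level_aux2 hN hQ hP (fun x hx hx' => hPQ x hx' hx) hq hp ⟨p0, hp0⟩ ht
      (fun x hx y hy => by rw [add_comm]; exact hG y hy x hx)
      (fun x hx y hy => by rw [add_comm, abs_sub_comm]; exact two y hy x hx) four' three'
      ⟨y1, hy1, fun x hx => lt_of_lt_of_le h (mx1 x hx trivial)⟩
    rcases this with h1 | h1 | h1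
    · left; linarith
    · right; right; linarith
    · right; left; linarith

end Pool.Agent.Lib.MP_2d7a7c_co.PQ
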