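import Pool.Agent.Lib.MP_2d7a7c_co.PQ.Sum
import Pool.Agent.Lib.MP_2d7a7c_co.PQ.Level2

/-! Peaceable queens, project PQ (helper45): the inequalities for systems of columns. -/

set_option autoImplicit false

namespace Pool.Agent.Lib.MP_2d7a7c_co.PQ

lemma four2_of {N K : ℤ} {c : ℤ → ℤ → ℤ} (hN : N = 2 * K) (lip : ∀ v, Lip (c v))
    (z : ∀ v, c v 0 = 0)
    {P Q : Finset ℤ} (hP : ∀ x ∈ P, 0 ≤ x ∧ x < N) (hQ : ∀ x ∈ Q, 0 ≤ x ∧ x < N)
    (hPQ : ∀ x ∈ P, x ∉ Q) (h : ∀ x ∈ P, ∀ y ∈ Q, Anti N c x y) : Four2 K (GG N c) P Q := by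
  intro x1 hx1 y1 hy1 y2 hy2 x2 hx2 h1 h2 h3 h4
  refine ⟨four_of hN lip z hP hQ hPQ h x1 hx1 y1 hy1 y2 hy2 x2 hx2 h1 h2 h3 h4, ?_⟩
  have b1 := hP x1 hx1
  have b2 := hP x2 hx2
  have b3 := hQ y1 hy1
  have b4 := hQ y2 hy2
  obtain ⟨p1, p2, p3, p4⟩ := h x1 hx1 y1 hy1
  obtain ⟨q1, q2, q3, q4⟩ := h x1 hx1 y2 hy2
  obtain ⟨r1, r2, r3, r4⟩ := h x2 hx2 y1 hy1
  obtain ⟨s1, s2, s3, s4⟩ := h x2 hx2 y2 hy2
  have ep2 : |x1 - (y1 + N)| = N + (y1 - x1) := by rw [abs_of_neg (by omega)]; ring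
  have ep3 : |x1 + N - y1| = N - (y1 - x1) := by rw [abs_of_nonneg (by omega)]; ring
  have ep4 : |x1 + N - (y1 + N)| = y1 - x1 := by rw [abs_of_neg (by omega)]; ring
  have eq1 : |x1 - y2| = (y1 - x1) + (y2 - y1) := by rw [abs_of_neg (by omega)]; ring
  have eq2 : |x1 - (y2 + N)| = N + (y1 - x1) + (y2 - y1) := by
    rw [abs_of_neg (by omega)]; ring
  have er3 : |x2 + N - y1| = N + (x2 - y2) + (y2 - y1) := by rw [abs_of_pos (by omega)]; ring
  have er4 : |x2 + N - (y1 + N)| = (x2 - y2) + (y2 - y1) := by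
    rw [abs_of_pos (by omega)]; ring
  have es1 : |x2 - y2| = x2 - y2 := by rw [abs_of_pos (by omega)]
  have es2 : |x2 - (y2 + N)| = N - (x2 - y2) := by
    rw [abs_of_nonpos (by omega)]; ring
  have es3 : |x2 + N - y2| = N + (x2 - y2) := by rw [abs_of_pos (by omega)]; ring
  rw [ep2] at p2
  rw [ep3] at p3
  rw [ep4] at p4
  rw [eq1] at q1
  rw [eq2] at q2
  rw [er3] at r3
  rw [er4] at r4
  rw [es1] at s1
  rw [es2] at s2
  rw [es3] at s3
  have H1 := four_mixed (N := N) (l := y2 - y1) (e := K - (y2 - y1)) (g1 := y1 - x1)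
    (g2 := x2 - y2) (X1 := c x1) (X1' := c (x1 + N)) (Y1 := c y1) (Y1' := c (y1 + N)) (Y2 := c y2)
    (Y2' := c (y2 + N)) (X2 := c x2) (X2' := c (x2 + N))
    (by omega) (by omega) (by omega) (by omega) (by omega) (by omega) (by omega)
    (z _) (z _) (z _) (z _) (z _) (z _) (z _) (z _) (lip _) (lip _) (lip _) (lip _) (lip _)
    (lip _) (lip _) q1 p2 q2 s2 r4 s3 s1 p3
  have H2 := four_mixed (N := N) (l := y2 - y1) (e := K - (y2 - y1)) (g1 := x2 - y2)
    (g2 := y1 - x1) (X1 := c (x2 + N)) (X1' := c x2) (Y1 := c (y2 + N)) (Y1' := c y2)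
    (Y2 := c (y1 + N)) (Y2' := c y1) (X2 := c (x1 + N)) (X2' := c x1)
    (by omega) (by omega) (by omega) (by omega) (by omega) (by omega) (by omega)
    (z _) (z _) (z _) (z _) (z _) (z _) (z _) (z _) (lip _) (lip _) (lip _) (lip _) (lip _)
    (lip _) (lip _) r4 s3 r3 p3 q1 p2 p4 s2
  unfold GG
  constructor <;> linarith

lemma three_of {N : ℤ} {c : ℤ → ℤ → ℤ} (lip : ∀ v, Lip (c v)) (z : ∀ v, c v 0 = 0)
    {P Q : Finset ℤ} (hP : ∀ x ∈ P, 0 ≤ x ∧ x < N) (hQ : ∀ x ∈ Q, 0 ≤ x ∧ x < N)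
    (h : ∀ x ∈ P, ∀ y ∈ Q, Anti N c x y) : Three N (GG N c) P Q := by
  intro x1 hx1 y hy x2 hx2 h1 h2 h3
  have b1 := hP x1 hx1
  have b2 := hP x2 hx2
  have b3 := hQ y hy
  obtain ⟨p1, p2, p3, p4⟩ := h x1 hx1 y hy
  obtain ⟨s1, s2, s3, s4⟩ := h x2 hx2 y hy
  have ep1 : |x1 - y| = y - x1 := by rw [abs_of_neg (by omega)]; ring
  have ep2 : |x1 - (y + N)| = N + (y - x1) := by rw [abs_of_neg (by omega)]; ring
  have ep3 : |x1 + N - y| = N - (y - x1) := by rw [abs_of_nonneg (by omega)]; ring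
  have ep4 : |x1 + N - (y + N)| = y - x1 := by rw [abs_of_neg (by omega)]; ring
  have es1 : |x2 - y| = x2 - y := by rw [abs_of_pos (by omega)]
  have es2 : |x2 - (y + N)| = N - (x2 - y) := by rw [abs_of_nonpos (by omega)]; ring
  have es3 : |x2 + N - y| = N + (x2 - y) := by rw [abs_of_pos (by omega)]; ring
  have es4 : |x2 + N - (y + N)| = x2 - y := by rw [abs_of_pos (by omega)]; ring
  rw [ep1] at p1
  rw [ep2] at p2
  rw [ep3] at p3
  rw [ep4] at p4
  rw [es1] at s1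
  rw [es2] at s2
  rw [es3] at s3
  rw [es4] at s4
  rcases le_total (x2 - y) (y - x1) with hle | hle
  · rw [max_eq_left hle] at h3 ⊢
    have H := PQ.three (N := N) (g1 := y - x1) (g2 := x2 - y) (X1 := c x1) (X1' := c (x1 + N))
      (Y := c y) (Y' := c (y + N)) (X2 := c x2) (X2' := c (x2 + N)) (by omega) (by omega) hle h3
      (z _) (z _) (z _) (z _) (z _) (z _) (lip _) (lip _) (lip _) (lip _) p1 p2 s3 s4 s2 p3
    unfold GG
    linarith
  · rw [max_eq_right hle] at h3 ⊢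
    have H := PQ.three (N := N) (g1 := x2 - y) (g2 := y - x1) (X1 := c (x2 + N)) (X1' := c x2)
      (Y := c (y + N)) (Y' := c y) (X2 := c (x1 + N)) (X2' := c x1) (by omega) (by omega) hle h3
      (z _) (z _) (z _) (z _) (z _) (z _) (lip _) (lip _) (lip _) (lip _) s4 s3 p2 p1 p3 s2
    unfold GG
    linarith

/-- The cap for a black column against a pair of white columns. -/
lemma cap_of {N : ℤ} {c : ℤ → ℤ → ℤ} (lip : ∀ v, Lip (c v)) (z : ∀ v, c v 0 = 0) {u v : ℤ}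
    (hu : 0 ≤ u) (hu' : u < N) (hv : 0 ≤ v) (hv' : v < 2 * N)
    (h1 : Opp |u - v| (c u) (c v)) (h2 : Opp |u + N - v| (c (u + N)) (c v)) :
    2 * c v N + GG N c u ≤ 2 * N := by
  unfold GG
  rcases lt_or_ge v u with h3 | h3
  · have e1 : |u - v| = u - v := abs_of_pos (by omega)
    have e2 : |u + N - v| = N + (u - v) := by rw [abs_of_pos (by omega)]; ring
    rw [e1] at h1
    rw [e2] at h2
    have := cap_b (N := N) (D := u - v) (by omega) (by omega) (z _) (z _) (z _) (lip _) (lip _)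
      (lip _) h1 h2
    linarith
  · rcases le_or_gt v (u + N) with h4 | h4
    · have e1 : |u - v| = v - u := by rw [abs_of_nonpos (by omega)]; ring
      have e2 : |u + N - v| = u + N - v := abs_of_nonneg (by omega)
      rw [e1] at h1
      rw [e2] at h2
      have := cap_a (N := N) (D := v - u) (D' := u + N - v) (by omega) (by omega) (by ring)
        (z _) (z _) (z _) (lip _) (lip _) (lip _) h1 h2
      linarith
    · have e1 : |u - v| = N + (v - u - N) := by rw [abs_of_neg (by omega)]; ring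
      have e2 : |u + N - v| = v - u - N := by rw [abs_of_neg (by omega)]; ring
      rw [e1] at h1
      rw [e2] at h2
      have := cap_b (N := N) (D := v - u - N) (by omega) (by omega) (z _) (z _) (z _) (lip _)
        (lip _) (lip _) h2 h1
      linarith

end Pool.Agent.Lib.MP_2d7a7c_co.PQ
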