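import Mathlib

/-! Peaceable queens, project PQ (helper45): sums and the final inequality. -/

set_option autoImplicit false

namespace Pool.Agent.Lib.MP_2d7a7c_co.PQ

/-- Decreasing enumeration of the values of a function on a finite set. -/
lemma exists_sorted (F : ℤ → ℤ) : ∀ (a : ℕ) (A : Finset ℤ), A.card = a → ∃ f : ℕ → ℤ,
    ∑ x ∈ A, F x = ∑ i ∈ Finset.range a, f i ∧
      ∀ i < a, ∃ U ⊆ A, U.card = i + 1 ∧ ∀ u ∈ U, f i ≤ F u := by
  intro a
  induction a with
  | zero =>
    intro A hA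
    rw [Finset.card_eq_zero] at hA
    subst hA
    exact ⟨fun _ => 0, by simp, by simp⟩
  | succ a ih =>
    intro A hA
    have hne : A.Nonempty := by rw [← Finset.card_pos]; omega
    obtain ⟨u, hu, mu⟩ := Finset.exists_min_image A F hne
    obtain ⟨f, hf1, hf2⟩ := ih (A.erase u) (by rw [Finset.card_erase_of_mem hu]; omega)
    refine ⟨fun i => if i < a then f i else F u, ?_, ?_⟩
    · rw [Finset.sum_range_succ, ← Finset.add_sum_erase A F hu, hf1]
      simp only [lt_irrefl, if_false]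
      rw [add_comm]
      congr 1
      refine Finset.sum_congr rfl fun i hi => ?_
      rw [if_pos (Finset.mem_range.1 hi)]
    · intro i hi
      by_cases h : i < a
      · obtain ⟨U, hU, hUc, hUF⟩ := hf2 i h
        refine ⟨U, hU.trans (Finset.erase_subset _ _), hUc, fun v hv => ?_⟩
        simp only [if_pos h]
        exact hUF v hv
      · refine ⟨A, Finset.Subset.refl _, by omega, fun v hv => ?_⟩
        simp only [if_neg h]
        exact mu v hv

lemma sum_div (f : ℕ → ℤ) {w : ℕ} (hw : 0 < w) (a : ℕ) :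
    ∑ k ∈ Finset.range (w * a), f (k / w) = w * ∑ i ∈ Finset.range a, f i := by
  induction a with
  | zero => simp
  | succ a ih =>
    rw [Nat.mul_succ, Finset.sum_range_add, ih, Finset.sum_range_succ, mul_add]
    congr 1
    have : ∀ r ∈ Finset.range w, f ((w * a + r) / w) = f a := by
      intro r hr
      rw [Nat.mul_add_div hw, Nat.div_eq_of_lt (Finset.mem_range.1 hr), add_zero]
    rw [Finset.sum_congr rfl this]
    simp

lemma sum_lin (A B : ℝ) (m : ℕ) :
    ∑ k ∈ Finset.range m, (A - B * (k : ℝ)) = A * m - B * (m * (m - 1) / 2) := by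
  induction m with
  | zero => simp
  | succ m ih =>
    rw [Finset.sum_range_succ, ih]
    push_cast
    ring

lemma sum_max {al be : ℝ} (hal : 0 < al) (m : ℕ) :
    ∑ k ∈ Finset.range m, max 0 (al * (k : ℝ) - be) ≤ (al * m - be) ^ 2 / (2 * al) := by
  have key : ∑ k ∈ Finset.range m, max 0 (al * (k : ℝ) - be) ≤
      (max 0 (al * m - be)) ^ 2 / (2 * al) := by
    induction m with
    | zero => simp only [Finset.range_zero, Finset.sum_empty]; positivity
    | succ m ih =>
      rw [Finset.sum_range_succ]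
      have h1 : max 0 (al * (m : ℝ) - be) ≤ (max 0 (al * ((m + 1 : ℕ) : ℝ) - be)) ^ 2 / (2 * al) -
          (max 0 (al * m - be)) ^ 2 / (2 * al) := by
        rw [← sub_div, le_div_iff₀ (by positivity)]
        push_cast
        rcases le_total 0 (al * (m : ℝ) - be) with h | h
        · rw [max_eq_right h, max_eq_right (by nlinarith)]
          nlinarith [sq_nonneg al]
        · rw [max_eq_left h]
          nlinarith [sq_nonneg (max 0 (al * ((m : ℝ) + 1) - be))]
      linarith
  refine key.trans ?_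
  refine div_le_div_of_nonneg_right ?_ (by positivity)
  rcases le_total 0 (al * (m : ℝ) - be) with h | h
  · rw [max_eq_right h]
  · rw [max_eq_left h]
    nlinarith [sq_nonneg (al * (m : ℝ) - be)]

/-- The value of the quadratic part. -/
lemma quad_part {w d v a : ℝ} (hw : 0 < w) (hd : 0 ≤ d) (h : w = v + 2 * a) :
    (((4 / w - 3 / (w + 2 * d)) / 9) * ((w + 2 * d) * a) - ((w + d) / 2 - 4 * (v * d) / w) / 9) ^ 2 /
      (2 * ((4 / w - 3 / (w + 2 * d)) / 9)) ≤ (w + d) * (7 * d - v) ^ 2 / 72 := by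
  have h2 : 0 < w + 2 * d := by linarith
  have h3 : 0 < w + 8 * d := by linarith
  have e1 : ((4 / w - 3 / (w + 2 * d)) / 9) * ((w + 2 * d) * a) -
      ((w + d) / 2 - 4 * (v * d) / w) / 9 = (7 * d - v) / 18 := by
    have hv : v = w - 2 * a := by linarith
    subst hv
    field_simp
    ring
  have e2 : (4 / w - 3 / (w + 2 * d)) / 9 = (w + 8 * d) / (9 * w * (w + 2 * d)) := by
    field_simp
    ring
  rw [e1, e2]
  have e3 : ((7 * d - v) / 18) ^ 2 / (2 * ((w + 8 * d) / (9 * w * (w + 2 * d)))) =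
      (7 * d - v) ^ 2 / 72 * (w * (w + 2 * d) / (w + 8 * d)) := by
    field_simp
    ring
  rw [e3]
  have e4 : w * (w + 2 * d) / (w + 8 * d) ≤ w + d := by
    rw [div_le_iff₀ h3]
    nlinarith [mul_nonneg hd hd, mul_nonneg hd hw.le]
  have e5 : 0 ≤ (7 * d - v) ^ 2 / 72 := by positivity
  calc (7 * d - v) ^ 2 / 72 * (w * (w + 2 * d) / (w + 8 * d)) ≤ (7 * d - v) ^ 2 / 72 * (w + d) :=
        mul_le_mul_of_nonneg_left e4 e5
    _ = (w + d) * (7 * d - v) ^ 2 / 72 := by ring

/-- The final inequality. -/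
lemma final_ineq {w d v a : ℝ} (hw : 0 < w) (hd : 0 ≤ d) (hv : 0 ≤ v) (ha : 0 ≤ a)
    (h : w = v + 2 * a) :
    6 * ((w + d) ^ 3 + (w + d) * d * (v - d) +
      (((2 / 3 * ((w + d) - v * d / w) + 2) * ((w + 2 * d) * a) -
        (2 / 3 * (1 / w + 1 / (w + 2 * d))) * (((w + 2 * d) * a) * ((w + 2 * d) * a - 1) / 2)) +
        (w + d) * (7 * d - v) ^ 2 / 72)) ≤
      7 * (w + d) ^ 3 + 6 * (w + d) ^ 2 + 2 * (w + d) := by
  have h2 : 0 < w + 2 * d := by linarith
  have hN : 0 < w + d := by linarith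
  have e1 : (2 / 3 * ((w + d) - v * d / w) + 2) * ((w + 2 * d) * a) -
        (2 / 3 * (1 / w + 1 / (w + 2 * d))) * (((w + 2 * d) * a) * ((w + 2 * d) * a - 1) / 2) =
      (w + 2 * d) * (w - v) * ((w + d) + v * ((w - d) / w)) / 6 + 2 / 3 * (a * ((w + d) / w)) +
        2 * (w + 2 * d) * a := by
    have hv : v = w - 2 * a := by linarith
    subst hv
    field_simp
    ring
  rw [e1]
  have e2 : (w - d) / w ≤ w / (w + d) := by
    rw [div_le_div_iff₀ hw hN]
    nlinarith [mul_nonneg hd hd]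
  have e3 : (w + 2 * d) * (w - v) * ((w + d) + v * ((w - d) / w)) ≤
      (w + 2 * d) * (w - v) * ((w + d) + v * (w / (w + d))) := by
    have : 0 ≤ (w + 2 * d) * (w - v) := mul_nonneg h2.le (by linarith)
    refine mul_le_mul_of_nonneg_left ?_ this
    have := mul_le_mul_of_nonneg_left e2 hv
    linarith
  have e4 : a * ((w + d) / w) ≤ (w + d) / 2 := by
    rw [← mul_div_assoc, div_le_div_iff₀ hw (by norm_num)]
    nlinarith
  have e5 : (w + 2 * d) * a ≤ (w + d) ^ 2 / 2 := by nlinarith [mul_nonneg hd hd, mul_nonneg hd hv]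
  -- the main term
  have e6 : 6 * (w + d) * d * (v - d) + (w + 2 * d) * (w - v) * ((w + d) + v * (w / (w + d))) +
      (w + d) * (7 * d - v) ^ 2 / 12 ≤ (w + d) ^ 3 := by
    have e7 : v * (w / (w + d)) * (w + d) = v * w := by field_simp
    have e8 : (6 * (w + d) * d * (v - d) + (w + 2 * d) * (w - v) * ((w + d) + v * (w / (w + d))) +
        (w + d) * (7 * d - v) ^ 2 / 12) * (w + d) =
        6 * (w + d) ^ 2 * d * (v - d) + (w + 2 * d) * (w - v) * ((w + d) ^ 2 + v * w) +
        (w + d) ^ 2 * (7 * d - v) ^ 2 / 12 := by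
      linear_combination (w + 2 * d) * (w - v) * e7
    have e9 : 6 * (w + d) ^ 2 * d * (v - d) + (w + 2 * d) * (w - v) * ((w + d) ^ 2 + v * w) +
        (w + d) ^ 2 * (7 * d - v) ^ 2 / 12 = (w + d) ^ 3 * (w + d) -
        ((w + d) ^ 2 * (35 * d ^ 2 - 34 * d * v + 11 * v ^ 2) / 12 + d ^ 2 * v * (w - v)) := by
      ring
    have e10 : 0 ≤ 35 * d ^ 2 - 34 * d * v + 11 * v ^ 2 := by
      nlinarith [sq_nonneg (11 * v - 17 * d), sq_nonneg d]
    have e11 : 0 ≤ d ^ 2 * v * (w - v) := by
      have : 0 ≤ w - v := by linarith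
      positivity
    have e12 : 0 ≤ (w + d) ^ 2 * (35 * d ^ 2 - 34 * d * v + 11 * v ^ 2) / 12 := by positivity
    have e13 : (6 * (w + d) * d * (v - d) + (w + 2 * d) * (w - v) * ((w + d) + v * (w / (w + d))) +
        (w + d) * (7 * d - v) ^ 2 / 12) * (w + d) ≤ (w + d) ^ 3 * (w + d) := by
      rw [e8, e9]; linarith
    exact le_of_mul_le_mul_right e13 hN
  linarith

end Pool.Agent.Lib.MP_2d7a7c_co.PQ
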