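import Mathlib

/-! Peaceable queens, project PQ (helper45): counting functions and the basic inequality. -/

set_option autoImplicit false

namespace Pool.Agent.Lib.MP_2d7a7c_co.PQ

/-- Number of elements of `S` below `s`. -/
noncomputable def cnt (S : Finset ℤ) (s : ℤ) : ℤ := ((S.filter (fun x => x < s)).card : ℤ)

/-- Growth at most one per step. -/
def Lip (f : ℤ → ℤ) : Prop := ∀ s t, s ≤ t → f t - f s ≤ t - s

/-- Two counting functions of opposite colours at distance `D`. -/
def Opp (D : ℤ) (f g : ℤ → ℤ) : Prop :=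
  ∀ s t, s ≤ t → (f t - f s) + (g (D - s) - g (D - t)) ≤ t - s

lemma Opp.symm {D : ℤ} {f g : ℤ → ℤ} (h : Opp D f g) : Opp D g f := by
  intro s t hst
  have := h (D - t) (D - s) (by omega)
  have e1 : D - (D - t) = t := by ring
  have e2 : D - (D - s) = s := by ring
  rw [e1, e2] at this
  linarith

/-- The inequality with free names for the four end points. -/
lemma Opp.use {D : ℤ} {f g : ℤ → ℤ} (h : Opp D f g) (s t s' t' : ℤ) (h0 : s ≤ t)
    (h1 : s + t' = D) (h2 : t + s' = D) : (f t - f s) + (g t' - g s') ≤ t - s := by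
  have := h s t h0
  have e1 : D - s = t' := by omega
  have e2 : D - t = s' := by omega
  rwa [e1, e2] at this

lemma cnt_sub (S : Finset ℤ) {s t : ℤ} (h : s ≤ t) :
    cnt S t - cnt S s = ((S.filter (fun x => s ≤ x ∧ x < t)).card : ℤ) := by
  unfold cnt
  have h1 : S.filter (fun x => x < t) =
      S.filter (fun x => x < s) ∪ S.filter (fun x => s ≤ x ∧ x < t) := by
    ext x
    simp only [Finset.mem_filter, Finset.mem_union]
    constructor
    · rintro ⟨h1, h2⟩
      by_cases h3 : x < s
      · exact Or.inl ⟨h1, h3⟩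
      · exact Or.inr ⟨h1, by omega, h2⟩
    · rintro (⟨h1, h2⟩ | ⟨h1, h2, h3⟩)
      · exact ⟨h1, by omega⟩
      · exact ⟨h1, h3⟩
  have h2 : Disjoint (S.filter (fun x => x < s)) (S.filter (fun x => s ≤ x ∧ x < t)) := by
    rw [Finset.disjoint_left]
    intro x hx hx'
    simp only [Finset.mem_filter] at hx hx'
    omega
  rw [h1, Finset.card_union_of_disjoint h2]
  push_cast
  ring

lemma cnt_mono (S : Finset ℤ) {s t : ℤ} (h : s ≤ t) : cnt S s ≤ cnt S t := by
  have := cnt_sub S h
  have h2 : (0 : ℤ) ≤ ((S.filter (fun x => s ≤ x ∧ x < t)).card : ℤ) := by positivity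
  linarith

lemma cnt_lip (S : Finset ℤ) : Lip (cnt S) := by
  intro s t h
  rw [cnt_sub S h]
  have h1 : S.filter (fun x => s ≤ x ∧ x < t) ⊆ Finset.Ico s t := by
    intro x hx
    simp only [Finset.mem_filter] at hx
    rw [Finset.mem_Ico]
    exact hx.2
  have h2 := Finset.card_le_card h1
  rw [Int.card_Ico] at h2
  omega

lemma cnt_eq (S : Finset ℤ) {s t : ℤ} (h : s ≤ t) (h1 : ∀ x ∈ S, s ≤ x → x < t → False) :
    cnt S t = cnt S s := by
  have h2 := cnt_sub S h
  have h3 : S.filter (fun x => s ≤ x ∧ x < t) = ∅ := by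
    rw [Finset.filter_eq_empty_iff]
    intro x hx h4
    exact h1 x hx h4.1 h4.2
  rw [h3, Finset.card_empty] at h2
  push_cast at h2
  linarith

lemma cnt_bot (S : Finset ℤ) {s : ℤ} (h : ∀ x ∈ S, s ≤ x) : cnt S s = 0 := by
  unfold cnt
  have h3 : S.filter (fun x => x < s) = ∅ := by
    rw [Finset.filter_eq_empty_iff]
    intro x hx h4
    have := h x hx
    omega
  rw [h3]
  simp

lemma cnt_top (S : Finset ℤ) {s : ℤ} (h : ∀ x ∈ S, x < s) : cnt S s = (S.card : ℤ) := by
  unfold cnt
  rw [Finset.filter_true_of_mem h]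

lemma cnt_opp (S T : Finset ℤ) (D : ℤ) (h : ∀ s ∈ S, ∀ t ∈ T, s + t + 1 ≠ D) :
    Opp D (cnt S) (cnt T) := by
  intro s t hst
  rw [cnt_sub S hst, cnt_sub T (by omega : D - t ≤ D - s)]
  set A := S.filter (fun x => s ≤ x ∧ x < t) with hA
  set B := T.filter (fun x => D - t ≤ x ∧ x < D - s) with hB
  have h1 : (B.image (fun x => D - 1 - x)).card = B.card := by
    apply Finset.card_image_of_injective
    intro a b hab
    simp only at hab
    omega
  have h2 : Disjoint A (B.image (fun x => D - 1 - x)) := by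
    rw [Finset.disjoint_left]
    intro x hx hx'
    rw [Finset.mem_image] at hx'
    obtain ⟨y, hy, hxy⟩ := hx'
    simp only [hA, hB, Finset.mem_filter] at hx hy
    exact h x hx.1 y hy.1 (by omega)
  have h3 : A ∪ B.image (fun x => D - 1 - x) ⊆ Finset.Ico s t := by
    intro x hx
    rw [Finset.mem_union, Finset.mem_image] at hx
    rw [Finset.mem_Ico]
    rcases hx with hx | ⟨y, hy, hxy⟩
    · simp only [hA, Finset.mem_filter] at hx
      exact hx.2
    · simp only [hB, Finset.mem_filter] at hy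
      omega
  have h4 := Finset.card_le_card h3
  rw [Finset.card_union_of_disjoint h2, h1, Int.card_Ico] at h4
  omega

end Pool.Agent.Lib.MP_2d7a7c_co.PQ
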