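import Pool.Agent.Lib.MP_2d7a7c_co.PQ.Sum2

/-! Peaceable queens, project PQ (helper45): boards, any numbers of columns. -/

set_option autoImplicit false

namespace Pool.Agent.Lib.MP_2d7a7c_co.PQ

/-- The weighted inequality for sets of squares given by (depth, column). -/
theorem core_cells2_aux {N K : ℤ} (hN : N = 2 * K) (hK : 0 ≤ K) (W B : Finset (ℤ × ℤ))
    (hW : ∀ p ∈ W, 0 ≤ p.1 ∧ p.1 < N ∧ 0 ≤ p.2 ∧ p.2 < 2 * N)
    (hB : ∀ p ∈ B, 0 ≤ p.1 ∧ p.1 < N ∧ 0 ≤ p.2 ∧ p.2 < 2 * N)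
    (hWB : ∀ p ∈ W, ∀ q ∈ B, p.2 ≠ q.2 ∧ |p.2 - q.2| ≠ p.1 + q.1 + 1) {k : ℤ} (hk : N ≤ k)
    (hk2 : k ≤ 2 * N)
    (hcW : ((W.image Prod.snd).card : ℤ) ≤ k) (hcB : ((B.image Prod.snd).card : ℤ) ≤ 2 * N - k) :
    6 * ((2 * N - k) * (W.card : ℤ) + k * B.card) ≤ 7 * N ^ 3 + 6 * N ^ 2 + 2 * N := by
  classical
  have hN0 : 0 ≤ N := by omega
  have h1 : W.image Prod.snd ⊆ Finset.Ico 0 (2 * N) \ B.image Prod.snd := by
    intro v hv
    rw [Finset.mem_image] at hv
    obtain ⟨p, hp, rfl⟩ := hv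
    rw [Finset.mem_sdiff, Finset.mem_Ico]
    refine ⟨⟨(hW p hp).2.2.1, (hW p hp).2.2.2⟩, fun h => ?_⟩
    rw [Finset.mem_image] at h
    obtain ⟨q, hq, hpq⟩ := h
    exact (hWB p hp q hq).1 hpq.symm
  have h2 : B.image Prod.snd ⊆ Finset.Ico 0 (2 * N) := by
    intro v hv
    rw [Finset.mem_image] at hv
    obtain ⟨p, hp, rfl⟩ := hv
    rw [Finset.mem_Ico]
    exact ⟨(hB p hp).2.2.1, (hB p hp).2.2.2⟩
  have h3 : k.toNat ≤ (Finset.Ico 0 (2 * N) \ B.image Prod.snd).card := by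
    have h4 := Finset.card_sdiff_add_card_eq_card h2
    rw [Int.card_Ico] at h4
    omega
  obtain ⟨C, hWC, hCB, hCc⟩ := Finset.exists_subsuperset_card_eq h1 (by omega) h3
  have hCI : C ⊆ Finset.Ico 0 (2 * N) := hCB.trans Finset.sdiff_subset
  set SW : ℤ → Finset ℤ := fun v => (W.filter (fun p => p.2 = v)).image Prod.fst with hSW
  set SB : ℤ → Finset ℤ := fun v => (B.filter (fun p => p.2 = v)).image Prod.fst with hSB
  have mSW : ∀ v s, s ∈ SW v ↔ (s, v) ∈ W := by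
    intro v s
    simp only [hSW, Finset.mem_image, Finset.mem_filter, Prod.exists, exists_and_right,
      exists_eq_right]
  have mSB : ∀ v s, s ∈ SB v ↔ (s, v) ∈ B := by
    intro v s
    simp only [hSB, Finset.mem_image, Finset.mem_filter, Prod.exists, exists_and_right,
      exists_eq_right]
  set S : ℤ → Finset ℤ := fun v => if v ∈ C then SW v else SB v with hS
  have bS : ∀ v, ∀ s ∈ S v, 0 ≤ s ∧ s < N := by
    intro v s hs
    simp only [hS] at hs
    split_ifs at hs with h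
    · exact ⟨(hW _ ((mSW v s).1 hs)).1, (hW _ ((mSW v s).1 hs)).2.1⟩
    · exact ⟨(hB _ ((mSB v s).1 hs)).1, (hB _ ((mSB v s).1 hs)).2.1⟩
  obtain ⟨w, hw⟩ : ∃ w : ℕ, (w : ℤ) = 2 * N - k := ⟨(2 * N - k).toNat, by omega⟩
  obtain ⟨d, hd⟩ : ∃ d : ℕ, (d : ℤ) = k - N := ⟨(k - N).toNat, by omega⟩
  have main := core2 (N := N) (K := K) hN hK (c := fun v => cnt (S v)) (C := C) hCI (w := w)
    (d := d) (by omega)
    (by rw [hCc]; omega) (fun v => cnt_lip (S v))
    (fun v => cnt_bot (S v) fun x hx => (bS v x hx).1)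
    (by
      intro u hu v hv0 hv1 hv
      refine cnt_opp _ _ _ fun s hs t ht h => ?_
      simp only [hS, if_pos hu] at hs
      simp only [hS, if_neg hv] at ht
      exact (hWB _ ((mSW u s).1 hs) _ ((mSB v t).1 ht)).2 h.symm)
  have cSW : ∀ v, (SW v).card = (W.filter (fun p => p.2 = v)).card := by
    intro v
    refine Finset.card_image_of_injOn ?_
    intro a ha b hb hab
    simp only [Finset.coe_filter, Set.mem_ofPred_eq] at ha hb
    exact Prod.ext hab (ha.2.trans hb.2.symm)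
  have cSB : ∀ v, (SB v).card = (B.filter (fun p => p.2 = v)).card := by
    intro v
    refine Finset.card_image_of_injOn ?_
    intro a ha b hb hab
    simp only [Finset.coe_filter, Set.mem_ofPred_eq] at ha hb
    exact Prod.ext hab (ha.2.trans hb.2.symm)
  have tW : (W.card : ℤ) = ∑ v ∈ Finset.Ico 0 (2 * N), (if v ∈ C then cnt (S v) N else 0) := by
    have h5 : W.card = ∑ v ∈ Finset.Ico 0 (2 * N), (SW v).card := by
      rw [Finset.sum_congr rfl fun v _ => cSW v]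
      exact Finset.card_eq_sum_card_fiberwise fun p hp => by
        simp only [Finset.coe_Ico, Set.mem_Ico]
        exact ⟨(hW p hp).2.2.1, (hW p hp).2.2.2⟩
    rw [h5]
    push_cast
    refine Finset.sum_congr rfl fun v _ => ?_
    split_ifs with h
    · rw [cnt_top (S v) fun x hx => (bS v x hx).2]
      simp only [hS, if_pos h]
    · have h6 : SW v = ∅ := by
        rw [Finset.eq_empty_iff_forall_notMem]
        intro s hs
        exact h (hWC (Finset.mem_image.2 ⟨(s, v), (mSW v s).1 hs, rfl⟩))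
      rw [h6]
      simp
  have tB : (B.card : ℤ) = ∑ v ∈ Finset.Ico 0 (2 * N), (if v ∈ C then 0 else cnt (S v) N) := by
    have h5 : B.card = ∑ v ∈ Finset.Ico 0 (2 * N), (SB v).card := by
      rw [Finset.sum_congr rfl fun v _ => cSB v]
      exact Finset.card_eq_sum_card_fiberwise fun p hp => by
        simp only [Finset.coe_Ico, Set.mem_Ico]
        exact ⟨(hB p hp).2.2.1, (hB p hp).2.2.2⟩
    rw [h5]
    push_cast
    refine Finset.sum_congr rfl fun v _ => ?_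
    split_ifs with h
    · have h6 : SB v = ∅ := by
        rw [Finset.eq_empty_iff_forall_notMem]
        intro s hs
        have h7 := (Finset.mem_sdiff.1 (hCB h)).2
        exact h7 (Finset.mem_image.2 ⟨(s, v), (mSB v s).1 hs, rfl⟩)
      rw [h6]
      simp
    · rw [cnt_top (S v) fun x hx => (bS v x hx).2]
      simp only [hS, if_neg h]
  have e1 : (w : ℤ) + 2 * d = k := by omega
  rw [e1, hw, ← tW, ← tB] at main
  exact main

theorem core_cells2 {N K : ℤ} (hN : N = 2 * K) (hK : 0 ≤ K) (W B : Finset (ℤ × ℤ))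
    (hW : ∀ p ∈ W, 0 ≤ p.1 ∧ p.1 < N ∧ 0 ≤ p.2 ∧ p.2 < 2 * N)
    (hB : ∀ p ∈ B, 0 ≤ p.1 ∧ p.1 < N ∧ 0 ≤ p.2 ∧ p.2 < 2 * N)
    (hWB : ∀ p ∈ W, ∀ q ∈ B, p.2 ≠ q.2 ∧ |p.2 - q.2| ≠ p.1 + q.1 + 1) {k : ℤ}
    (hcW : ((W.image Prod.snd).card : ℤ) ≤ k) (hcB : ((B.image Prod.snd).card : ℤ) ≤ 2 * N - k) :
    6 * ((2 * N - k) * (W.card : ℤ) + k * B.card) ≤ 7 * N ^ 3 + 6 * N ^ 2 + 2 * N := by
  rcases le_total N k with h | h
  · exact core_cells2_aux hN hK W B hW hB hWB h (by omega) hcW hcB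
  · have := core_cells2_aux hN hK B W hB hW
      (fun p hp q hq => ⟨fun h => (hWB q hq p hp).1 h.symm, fun h => (hWB q hq p hp).2
        (by rw [abs_sub_comm, h]; ring)⟩) (k := 2 * N - k) (by omega) (by omega) hcB (by omega)
    have e : 2 * N - (2 * N - k) = k := by ring
    rw [e] at this
    linarith

/-- Boards, with the even number `N`. -/
theorem board_cells (n h N K : ℕ) (hN : N = 2 * K) (W B : Finset (Fin n × Fin n))
    (hWB : ∀ w ∈ W, ∀ b ∈ B, w.1 ≠ b.1 ∧ w.2 ≠ b.2 ∧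
      ((w.1 : ℕ) : ℤ) - ((w.2 : ℕ) : ℤ) ≠ ((b.1 : ℕ) : ℤ) - ((b.2 : ℕ) : ℤ) ∧
      (w.1 : ℕ) + (w.2 : ℕ) ≠ (b.1 : ℕ) + (b.2 : ℕ))
    (hW : ∀ w ∈ W, (w.1 : ℕ) < h) (hB : ∀ b ∈ B, h ≤ (b.1 : ℕ)) (hM : h ≤ N) (hM' : n ≤ h + N)
    {k : ℤ} (hcW : ((W.image Prod.snd).card : ℤ) ≤ k)
    (hcB : ((B.image Prod.snd).card : ℤ) ≤ 2 * N - k) :
    6 * ((2 * (N : ℤ) - k) * W.card + k * B.card) ≤ 7 * (N : ℤ) ^ 3 + 6 * (N : ℤ) ^ 2 + 2 * N := by
  classical
  set fW : Fin n × Fin n → ℤ × ℤ := fun w => ((h : ℤ) - 1 - (w.1 : ℕ), ((w.2 : ℕ) : ℤ)) with hfW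
  set fB : Fin n × Fin n → ℤ × ℤ := fun b => (((b.1 : ℕ) : ℤ) - h, ((b.2 : ℕ) : ℤ)) with hfB
  have iW : Function.Injective fW := by
    intro a b hab
    simp only [hfW, Prod.mk.injEq] at hab
    apply Prod.ext
    · apply Fin.ext; omega
    · apply Fin.ext; omega
  have iB : Function.Injective fB := by
    intro a b hab
    simp only [hfB, Prod.mk.injEq] at hab
    apply Prod.ext
    · apply Fin.ext; omega
    · apply Fin.ext; omega
  have snd_card : ∀ (f : Fin n × Fin n → ℤ × ℤ), (∀ x, (f x).2 = ((x.2 : ℕ) : ℤ)) →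
      ∀ A : Finset (Fin n × Fin n), ((A.image f).image Prod.snd).card = (A.image Prod.snd).card := by
    intro f hf A
    have h1 : (A.image f).image Prod.snd = (A.image Prod.snd).image (fun x : Fin n => ((x : ℕ) : ℤ)) := by
      rw [Finset.image_image, Finset.image_image]
      exact Finset.image_congr fun x _ => hf x
    rw [h1]
    apply Finset.card_image_of_injective
    intro a b hab
    apply Fin.ext
    simp only at hab
    omega
  have main := core_cells2 (N := (N : ℤ)) (K := (K : ℤ)) (by exact_mod_cast hN) (by omega)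
    (W.image fW) (B.image fB)
    (by
      intro p hp
      rw [Finset.mem_image] at hp
      obtain ⟨w, hw, rfl⟩ := hp
      have h1 := hW w hw
      have h2 := w.2.2
      simp only [hfW]
      omega)
    (by
      intro p hp
      rw [Finset.mem_image] at hp
      obtain ⟨w, hw, rfl⟩ := hp
      have h1 := hB w hw
      have h2 := w.2.2
      have h3 := w.1.2
      simp only [hfB]
      omega)
    (by
      intro p hp q hq
      rw [Finset.mem_image] at hp hq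
      obtain ⟨w, hw, rfl⟩ := hp
      obtain ⟨b, hb, rfl⟩ := hq
      obtain ⟨-, h2, h3, h4⟩ := hWB w hw b hb
      have h5 := hW w hw
      have h6 := hB b hb
      have h7 : ((w.2 : ℕ) : ℤ) ≠ ((b.2 : ℕ) : ℤ) := by
        intro h
        apply h2
        apply Fin.ext
        omega
      simp only [hfW, hfB]
      refine ⟨h7, fun h8 => ?_⟩
      rcases abs_cases (((w.2 : ℕ) : ℤ) - ((b.2 : ℕ) : ℤ)) with ⟨h9, -⟩ | ⟨h9, -⟩
      · apply h4; omega
      · apply h3; omega) (k := k)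
    (by rw [snd_card fW fun _ => rfl]; exact hcW)
    (by rw [snd_card fB fun _ => rfl]; exact hcB)
  rw [Finset.card_image_of_injective _ iW, Finset.card_image_of_injective _ iB] at main
  exact main

/-- The weighted inequality for boards: white in the rows below the line `h`, black above it,
at most `M` rows on either side, at most `k` white and `2 M - k` black columns. -/
theorem board2 (n h M k : ℕ) (W B : Finset (Fin n × Fin n))
    (hWB : ∀ w ∈ W, ∀ b ∈ B, w.1 ≠ b.1 ∧ w.2 ≠ b.2 ∧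
      ((w.1 : ℕ) : ℤ) - ((w.2 : ℕ) : ℤ) ≠ ((b.1 : ℕ) : ℤ) - ((b.2 : ℕ) : ℤ) ∧
      (w.1 : ℕ) + (w.2 : ℕ) ≠ (b.1 : ℕ) + (b.2 : ℕ))
    (hW : ∀ w ∈ W, (w.1 : ℕ) < h) (hB : ∀ b ∈ B, h ≤ (b.1 : ℕ)) (hM : h ≤ M) (hM' : n ≤ h + M)
    (hcW : (W.image Prod.snd).card ≤ k) (hcB : (B.image Prod.snd).card + k ≤ 2 * M) :
    6 * ((2 * M - k) * W.card + k * B.card) ≤
      7 * (M + 1) ^ 3 + 6 * (M + 1) ^ 2 + 2 * (M + 1) := by
  have hk : k ≤ 2 * M := by omega
  have e0 : ((2 * M - k : ℕ) : ℤ) = 2 * M - k := by omega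
  have goal : 6 * ((2 * (M : ℤ) - k) * W.card + k * B.card) ≤
      7 * ((M : ℤ) + 1) ^ 3 + 6 * ((M : ℤ) + 1) ^ 2 + 2 * ((M : ℤ) + 1) := by
    rcases Nat.even_or_odd M with hM2 | hM2
    · obtain ⟨K, hK⟩ := hM2
      have := board_cells n h M K (by omega) W B hWB hW hB hM hM' (k := (k : ℤ)) (by omega)
        (by omega)
      have h0 : (0 : ℤ) ≤ M := by positivity
      nlinarith [mul_nonneg h0 h0]
    · obtain ⟨K, hK⟩ := hM2
      have := board_cells n h (M + 1) (K + 1) (by omega) W B hWB hW hB (by omega) (by omega)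
        (k := (k : ℤ) + 1) (by omega) (by push_cast; omega)
      push_cast at this
      have h0 : (0 : ℤ) ≤ W.card := by positivity
      have h1 : (0 : ℤ) ≤ B.card := by positivity
      nlinarith
  have : ((6 * ((2 * M - k) * W.card + k * B.card) : ℕ) : ℤ) ≤
      ((7 * (M + 1) ^ 3 + 6 * (M + 1) ^ 2 + 2 * (M + 1) : ℕ) : ℤ) := by
    push_cast [e0]
    exact goal
  exact_mod_cast this

/-- The smaller colour: white in the rows below the line `h`, black above it, at most `M` rows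
on either side. -/
theorem board_min (n h M : ℕ) (W B : Finset (Fin n × Fin n))
    (hWB : ∀ w ∈ W, ∀ b ∈ B, w.1 ≠ b.1 ∧ w.2 ≠ b.2 ∧
      ((w.1 : ℕ) : ℤ) - ((w.2 : ℕ) : ℤ) ≠ ((b.1 : ℕ) : ℤ) - ((b.2 : ℕ) : ℤ) ∧
      (w.1 : ℕ) + (w.2 : ℕ) ≠ (b.1 : ℕ) + (b.2 : ℕ))
    (hW : ∀ w ∈ W, (w.1 : ℕ) < h) (hB : ∀ b ∈ B, h ≤ (b.1 : ℕ)) (hM : h ≤ M) (hM' : n ≤ h + M) :
    12 * min W.card B.card ≤ 7 * M ^ 2 + 20 * M + 15 := by
  classical
  obtain ⟨K, hK1, hK2⟩ : ∃ K : ℕ, M ≤ 2 * K ∧ 2 * K ≤ M + 1 := ⟨(M + 1) / 2, by omega, by omega⟩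
  obtain ⟨N, hN⟩ : ∃ N, N = 2 * K := ⟨_, rfl⟩
  have hcols : (W.image Prod.snd).card + (B.image Prod.snd).card ≤ n := by
    have h1 : Disjoint (W.image Prod.snd) (B.image Prod.snd) := by
      rw [Finset.disjoint_left]
      intro v hv hv'
      rw [Finset.mem_image] at hv hv'
      obtain ⟨p, hp, rfl⟩ := hv
      obtain ⟨q, hq, hpq⟩ := hv'
      exact (hWB p hp q hq).2.1 hpq.symm
    rw [← Finset.card_union_of_disjoint h1]
    have := Finset.card_le_univ (W.image Prod.snd ∪ B.image Prod.snd)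
    simpa using this
  obtain ⟨m, hm⟩ : ∃ m, m = min W.card B.card := ⟨_, rfl⟩
  have hmW : m ≤ W.card := by omega
  have hmB : m ≤ B.card := by omega
  rw [← hm]
  have main := board_cells n h N K hN W B hWB hW hB (by omega) (by omega)
    (k := ((W.image Prod.snd).card : ℤ)) le_rfl (by omega)
  rcases Nat.eq_zero_or_pos N with h0 | h0
  · have hn : n = 0 := by omega
    subst hn
    have : W = ∅ := by
      rw [Finset.eq_empty_iff_forall_notMem]
      intro x _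
      exact x.1.elim0
    rw [this] at hmW
    simp only [Finset.card_empty] at hmW
    omega
  · have h1 : (0 : ℤ) ≤ 2 * (N : ℤ) - ((W.image Prod.snd).card : ℤ) := by omega
    have h2 : (0 : ℤ) ≤ ((W.image Prod.snd).card : ℤ) := by positivity
    have h3 : (m : ℤ) ≤ W.card := by exact_mod_cast hmW
    have h4 : (m : ℤ) ≤ B.card := by exact_mod_cast hmB
    have h5 := mul_le_mul_of_nonneg_left h3 h1
    have h6 := mul_le_mul_of_nonneg_left h4 h2
    have h7 : (N : ℤ) * (12 * m) ≤ N * (7 * N ^ 2 + 6 * N + 2) := by linarith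
    have h8 : (0 : ℤ) < N := by exact_mod_cast h0
    have h9 := le_of_mul_le_mul_left h7 h8
    have h10 : (N : ℤ) ≤ M + 1 := by omega
    have h11 : 12 * (m : ℤ) ≤ 7 * M ^ 2 + 20 * M + 15 := by nlinarith
    exact_mod_cast h11

end Pool.Agent.Lib.MP_2d7a7c_co.PQ
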