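import Mathlib

/-! Peaceable queens, project PQ (helper45): Jubin's four pentagons. -/

set_option autoImplicit false

namespace Pool.Agent.Lib.MP_2d7a7c_co.PQ

/-- The cells (column, depth) of the first pentagon. -/
def pentL (q : ℕ) : Finset (ℕ × ℕ) :=
  ((Finset.range (6 * q)).sigma fun i => Finset.Ico (max (6 * q - i) (2 * q + i + 1)) (12 * q)).image
    (fun x => (6 * q + x.1, x.2))

/-- The cells (column, depth) of the second pentagon. -/
def pentR (q : ℕ) : Finset (ℕ × ℕ) :=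
  ((Finset.range (6 * q)).sigma fun i => Finset.Ico (i - 2 * q) (6 * q + i)).image
    (fun x => (18 * q + x.1, x.2))

lemma mem_pentL {q : ℕ} {x : ℕ × ℕ} (h : x ∈ pentL q) : 6 * q ≤ x.1 ∧ x.1 < 12 * q ∧
    12 * q ≤ x.1 + x.2 ∧ x.1 + 1 ≤ x.2 + 4 * q ∧ x.2 < 12 * q := by
  unfold pentL at h
  rw [Finset.mem_image] at h
  obtain ⟨⟨i, s⟩, hy, rfl⟩ := h
  rw [Finset.mem_sigma, Finset.mem_range, Finset.mem_Ico] at hy
  simp only at hy ⊢
  omega

lemma mem_pentR {q : ℕ} {x : ℕ × ℕ} (h : x ∈ pentR q) : 18 * q ≤ x.1 ∧ x.1 < 24 * q ∧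
    x.1 ≤ x.2 + 20 * q ∧ x.2 + 12 * q + 1 ≤ x.1 := by
  unfold pentR at h
  rw [Finset.mem_image] at h
  obtain ⟨⟨i, s⟩, hy, rfl⟩ := h
  rw [Finset.mem_sigma, Finset.mem_range, Finset.mem_Ico] at hy
  simp only at hy ⊢
  omega

lemma sum_a (q m : ℕ) : 2 * ∑ i ∈ Finset.range m, (q + i) + m = 2 * (m * q) + m * m := by
  induction m with
  | zero => simp
  | succ m ih => rw [Finset.sum_range_succ]; linarith [ih, (by ring : (m + 1) * (m + 1) = m * m + 2 * m + 1), (by ring : 2 * ((m + 1) * q) = 2 * (m * q) + 2 * q)]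

lemma card_pentL (q : ℕ) : (pentL q).card + 3 * q = 38 * q ^ 2 := by
  unfold pentL
  rw [Finset.card_image_of_injective, Finset.card_sigma]
  · have e : 6 * q = 2 * q + 4 * q := by ring
    have h1 : ∑ i ∈ Finset.range (2 * q), (Finset.Ico (max (6 * q - i) (2 * q + i + 1)) (12 * q)).card =
        ∑ i ∈ Finset.range (2 * q), (6 * q + i) := by
      refine Finset.sum_congr rfl fun i hi => ?_
      rw [Finset.mem_range] at hi
      rw [Nat.card_Ico]
      omega
    have h2 : ∑ i ∈ Finset.range (4 * q), (Finset.Ico (max (6 * q - (2 * q + i))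
        (2 * q + (2 * q + i) + 1)) (12 * q)).card = ∑ i ∈ Finset.range (4 * q), (4 * q + i) := by
      rw [← Finset.sum_range_reflect (fun i => 4 * q + i)]
      refine Finset.sum_congr rfl fun i hi => ?_
      rw [Finset.mem_range] at hi
      rw [Nat.card_Ico]
      omega
    have h3 : ∑ i ∈ Finset.range (6 * q), (Finset.Ico (max (6 * q - i) (2 * q + i + 1)) (12 * q)).card =
        ∑ i ∈ Finset.range (2 * q), (6 * q + i) + ∑ i ∈ Finset.range (4 * q), (4 * q + i) := by
      rw [← h1, ← h2]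
      conv_lhs => rw [e]
      rw [Finset.sum_range_add]
      congr 1
      · refine Finset.sum_congr rfl fun i _ => ?_
        rw [← e]
      · refine Finset.sum_congr rfl fun i _ => ?_
        rw [← e]
    rw [h3]
    have h4 := sum_a (6 * q) (2 * q)
    have h5 := sum_a (4 * q) (4 * q)
    nlinarith
  · rintro ⟨a, b⟩ ⟨c, d⟩ h
    simp only [Prod.mk.injEq] at h
    obtain ⟨h1, h2⟩ := h
    have h3 : a = c := by omega
    subst h3
    subst h2
    rfl

lemma card_pentR (q : ℕ) : (pentR q).card + q = 46 * q ^ 2 := by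
  unfold pentR
  rw [Finset.card_image_of_injective, Finset.card_sigma]
  · have e : 6 * q = 2 * q + 4 * q := by ring
    have h1 : ∑ i ∈ Finset.range (2 * q), (Finset.Ico (i - 2 * q) (6 * q + i)).card =
        ∑ i ∈ Finset.range (2 * q), (6 * q + i) := by
      refine Finset.sum_congr rfl fun i hi => ?_
      rw [Finset.mem_range] at hi
      rw [Nat.card_Ico]
      omega
    have h2 : ∑ i ∈ Finset.range (4 * q), (Finset.Ico ((2 * q + i) - 2 * q)
        (6 * q + (2 * q + i))).card = ∑ i ∈ Finset.range (4 * q), (8 * q) := by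
      refine Finset.sum_congr rfl fun i hi => ?_
      rw [Nat.card_Ico]
      omega
    have h3 : ∑ i ∈ Finset.range (6 * q), (Finset.Ico (i - 2 * q) (6 * q + i)).card =
        ∑ i ∈ Finset.range (2 * q), (6 * q + i) + ∑ i ∈ Finset.range (4 * q), (8 * q) := by
      rw [← h1, ← h2]
      conv_lhs => rw [e]
      rw [Finset.sum_range_add]
      congr 1
      · refine Finset.sum_congr rfl fun i _ => ?_
        rw [← e]
      · refine Finset.sum_congr rfl fun i _ => ?_
        rw [← e]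
    rw [h3, Finset.sum_const, Finset.card_range, smul_eq_mul]
    have h4 := sum_a (6 * q) (2 * q)
    nlinarith
  · rintro ⟨a, b⟩ ⟨c, d⟩ h
    simp only [Prod.mk.injEq] at h
    obtain ⟨h1, h2⟩ := h
    have h3 : a = c := by omega
    subst h3
    subst h2
    rfl

/-- Both pentagons. -/
def pent (q : ℕ) : Finset (ℕ × ℕ) := pentL q ∪ pentR q

lemma mem_pent {q : ℕ} {x : ℕ × ℕ} (h : x ∈ pent q) :
    (6 * q ≤ x.1 ∧ x.1 < 12 * q ∧ 12 * q ≤ x.1 + x.2 ∧ x.1 + 1 ≤ x.2 + 4 * q ∧ x.2 < 12 * q) ∨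
    (18 * q ≤ x.1 ∧ x.1 < 24 * q ∧ x.1 ≤ x.2 + 20 * q ∧ x.2 + 12 * q + 1 ≤ x.1) := by
  rcases Finset.mem_union.1 h with h | h
  · exact Or.inl (mem_pentL h)
  · exact Or.inr (mem_pentR h)

lemma card_pent (q : ℕ) : (pent q).card + 4 * q = 84 * q ^ 2 := by
  unfold pent
  rw [Finset.card_union_of_disjoint]
  · have := card_pentL q
    have := card_pentR q
    omega
  · rw [Finset.disjoint_left]
    intro x hx hx'
    have h1 := mem_pentL hx
    have h2 := mem_pentR hx'
    omega

/-- The construction on a board. -/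
theorem construction (n q : ℕ) (hq : 1 ≤ q) (hn : 24 * q ≤ n) :
    ∃ W B : Finset (Fin n × Fin n), W.card = 84 * q ^ 2 - 4 * q ∧ B.card = 84 * q ^ 2 - 4 * q ∧
      (∀ w ∈ W, ∀ b ∈ B, w.1 ≠ b.1 ∧ w.2 ≠ b.2 ∧
        ((w.1 : ℕ) : ℤ) - ((w.2 : ℕ) : ℤ) ≠ ((b.1 : ℕ) : ℤ) - ((b.2 : ℕ) : ℤ) ∧
        (w.1 : ℕ) + (w.2 : ℕ) ≠ (b.1 : ℕ) + (b.2 : ℕ)) ∧
      (∀ w ∈ W, 2 * (w.1 : ℕ) < n) ∧ (∀ b ∈ B, n ≤ 2 * (b.1 : ℕ)) ∧
      2 * (W.image Prod.snd).card ≤ n ∧ 2 * (B.image Prod.snd).card ≤ n := by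
  classical
  have hn0 : 0 < n := by omega
  obtain ⟨h, hh1, hh2⟩ : ∃ h : ℕ, n ≤ 2 * h ∧ 2 * h ≤ n + 1 := ⟨(n + 1) / 2, by omega, by omega⟩
  set f : ℕ × ℕ → Fin n × Fin n := fun x =>
    (⟨(h - 1 - x.2) % n, Nat.mod_lt _ hn0⟩, ⟨x.1 % n, Nat.mod_lt _ hn0⟩) with hf
  set g : ℕ × ℕ → Fin n × Fin n := fun x =>
    (⟨(h + x.2) % n, Nat.mod_lt _ hn0⟩, ⟨(24 * q - 1 - x.1) % n, Nat.mod_lt _ hn0⟩) with hg
  have f1 : ∀ x ∈ pent q, ((f x).1 : ℕ) = h - 1 - x.2 := by
    intro x hx
    have := mem_pent hx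
    exact Nat.mod_eq_of_lt (by omega)
  have f2 : ∀ x ∈ pent q, ((f x).2 : ℕ) = x.1 := by
    intro x hx
    have := mem_pent hx
    exact Nat.mod_eq_of_lt (by omega)
  have g1 : ∀ x ∈ pent q, ((g x).1 : ℕ) = h + x.2 := by
    intro x hx
    have := mem_pent hx
    exact Nat.mod_eq_of_lt (by omega)
  have g2 : ∀ x ∈ pent q, ((g x).2 : ℕ) = 24 * q - 1 - x.1 := by
    intro x hx
    have := mem_pent hx
    exact Nat.mod_eq_of_lt (by omega)
  refine ⟨(pent q).image f, (pent q).image g, ?_, ?_, ?_, ?_, ?_, ?_, ?_⟩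
  · rw [Finset.card_image_of_injOn]
    · have := card_pent q; omega
    · intro x hx y hy hxy
      have hx' : x ∈ pent q := hx
      have hy' : y ∈ pent q := hy
      have a1 := f1 x hx'
      have a2 := f2 x hx'
      have b1 := f1 y hy'
      have b2 := f2 y hy'
      rw [hxy] at a1 a2
      have m1 := mem_pent hx'
      have m2 := mem_pent hy'
      apply Prod.ext <;> omega
  · rw [Finset.card_image_of_injOn]
    · have := card_pent q; omega
    · intro x hx y hy hxy
      have hx' : x ∈ pent q := hx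
      have hy' : y ∈ pent q := hy
      have a1 := g1 x hx'
      have a2 := g2 x hx'
      have b1 := g1 y hy'
      have b2 := g2 y hy'
      rw [hxy] at a1 a2
      have m1 := mem_pent hx'
      have m2 := mem_pent hy'
      apply Prod.ext <;> omega
  · intro w hw b hb
    rw [Finset.mem_image] at hw hb
    obtain ⟨x, hx, rfl⟩ := hw
    obtain ⟨y, hy, rfl⟩ := hb
    have a1 := f1 x hx
    have a2 := f2 x hx
    have b1 := g1 y hy
    have b2 := g2 y hy
    have m1 := mem_pent hx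
    have m2 := mem_pent hy
    refine ⟨fun e => ?_, fun e => ?_, fun e => ?_, fun e => ?_⟩
    · have e' := congrArg Fin.val e
      omega
    · have e' := congrArg Fin.val e
      omega
    · omega
    · omega
  · intro w hw
    rw [Finset.mem_image] at hw
    obtain ⟨x, hx, rfl⟩ := hw
    have a1 := f1 x hx
    have m1 := mem_pent hx
    omega
  · intro w hw
    rw [Finset.mem_image] at hw
    obtain ⟨x, hx, rfl⟩ := hw
    have a1 := g1 x hx
    omega
  · have h1 : (((pent q).image f).image Prod.snd).card ≤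
        (Finset.Ico (6 * q) (12 * q) ∪ Finset.Ico (18 * q) (24 * q)).card := by
      refine Finset.card_le_card_of_injOn (fun x : Fin n => (x : ℕ)) ?_ ?_
      · intro v hv
        have hv' := Finset.mem_coe.1 hv
        rw [Finset.mem_image] at hv'
        obtain ⟨p, hp, rfl⟩ := hv'
        rw [Finset.mem_image] at hp
        obtain ⟨x, hx, rfl⟩ := hp
        have a2 := f2 x hx
        have m1 := mem_pent hx
        simp only [Finset.coe_union, Finset.coe_Ico, Set.mem_union, Set.mem_Ico]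
        omega
      · intro a _ b _ hab
        exact Fin.ext hab
    have h2 := Finset.card_union_le (Finset.Ico (6 * q) (12 * q)) (Finset.Ico (18 * q) (24 * q))
    rw [Nat.card_Ico, Nat.card_Ico] at h2
    omega
  · have h1 : (((pent q).image g).image Prod.snd).card ≤
        (Finset.Ico 0 (6 * q) ∪ Finset.Ico (12 * q) (18 * q)).card := by
      refine Finset.card_le_card_of_injOn (fun x : Fin n => (x : ℕ)) ?_ ?_
      · intro v hv
        have hv' := Finset.mem_coe.1 hv
        rw [Finset.mem_image] at hv'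
        obtain ⟨p, hp, rfl⟩ := hv'
        rw [Finset.mem_image] at hp
        obtain ⟨x, hx, rfl⟩ := hp
        have a2 := g2 x hx
        have m1 := mem_pent hx
        simp only [Finset.coe_union, Finset.coe_Ico, Set.mem_union, Set.mem_Ico]
        omega
      · intro a _ b _ hab
        exact Fin.ext hab
    have h2 := Finset.card_union_le (Finset.Ico 0 (6 * q)) (Finset.Ico (12 * q) (18 * q))
    rw [Nat.card_Ico, Nat.card_Ico] at h2
    omega

end Pool.Agent.Lib.MP_2d7a7c_co.PQ
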