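import Pool.Agent.Lib.MP_2d7a7c_co.PQ.Pair

/-! Peaceable queens, project PQ (helper45): the level lemma. -/

set_option autoImplicit false

namespace Pool.Agent.Lib.MP_2d7a7c_co.PQ

/-- Bounds for two antipodal pairs. -/
def Two (N : ℤ) (G : ℤ → ℤ) (P Q : Finset ℤ) : Prop :=
  ∀ x ∈ P, ∀ y ∈ Q, G x + G y ≤ 2 * |x - y| ∧ G x + G y ≤ N - |x - y|

/-- Bounds for four antipodal pairs. -/
def Four (K : ℤ) (G : ℤ → ℤ) (P Q : Finset ℤ) : Prop :=
  ∀ x1 ∈ P, ∀ y1 ∈ Q, ∀ y2 ∈ Q, ∀ x2 ∈ P, x1 < y1 → y1 ≤ y2 → y2 < x2 → y2 - y1 ≤ K →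
    G x1 + G y1 + G y2 + G x2 ≤ ff (K - (y2 - y1)) (y1 - x1) + ff (K - (y2 - y1)) (x2 - y2)

lemma exists_max {S : Finset ℤ} (p : ℤ → Prop) [DecidablePred p] (h : ∃ x ∈ S, p x) :
    ∃ x ∈ S, p x ∧ ∀ y ∈ S, p y → y ≤ x := by
  obtain ⟨x, hx, hp⟩ := h
  have hne : (S.filter p).Nonempty := ⟨x, Finset.mem_filter.2 ⟨hx, hp⟩⟩
  have h1 := Finset.mem_filter.1 ((S.filter p).max'_mem hne)
  exact ⟨_, h1.1, h1.2, fun y hy hpy => (S.filter p).le_max' y (Finset.mem_filter.2 ⟨hy, hpy⟩)⟩

lemma exists_min {S : Finset ℤ} (p : ℤ → Prop) [DecidablePred p] (h : ∃ x ∈ S, p x) :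
    ∃ x ∈ S, p x ∧ ∀ y ∈ S, p y → x ≤ y := by
  obtain ⟨x, hx, hp⟩ := h
  have hne : (S.filter p).Nonempty := ⟨x, Finset.mem_filter.2 ⟨hx, hp⟩⟩
  have h1 := Finset.mem_filter.1 ((S.filter p).min'_mem hne)
  exact ⟨_, h1.1, h1.2, fun y hy hpy => (S.filter p).min'_le y (Finset.mem_filter.2 ⟨hy, hpy⟩)⟩

/-- The level lemma when the leftmost point is in `P`. -/
lemma level_aux {N K t : ℤ} {P Q : Finset ℤ} {G : ℤ → ℤ} (hN : N = 2 * K)
    (hP : ∀ x ∈ P, 0 ≤ x ∧ x < N) (hQ : ∀ x ∈ Q, 0 ≤ x ∧ x < N)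
    (hPQ : ∀ x ∈ P, x ∉ Q) {j : ℤ} (hj : (P.card : ℤ) = j) (hj' : (Q.card : ℤ) = j)
    (hQne : Q.Nonempty) (ht : 1 ≤ t) (hG : ∀ x ∈ P, ∀ y ∈ Q, t ≤ G x + G y)
    (two : Two N G P Q) (four : Four K G P Q) (hleft : ∃ x0 ∈ P, ∀ y ∈ Q, x0 < y) :
    4 * j ≤ 2 * N - 3 * t + 6 := by
  classical
  obtain ⟨x0, hx0, hx0'⟩ := hleft
  obtain ⟨q0, hq0⟩ := hQne
  -- the two inequalities for pairs
  have T1 : ∀ x ∈ P, ∀ y ∈ Q, t ≤ 2 * (x - y) ∨ t ≤ 2 * (y - x) := by
    intro x hx y hy
    have h1 := (two x hx y hy).1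
    have h2 := hG x hx y hy
    rcases abs_cases (x - y) with ⟨h3, -⟩ | ⟨h3, -⟩
    · left; omega
    · right; omega
  have T2 : ∀ x ∈ P, ∀ y ∈ Q, t ≤ N - (x - y) ∧ t ≤ N - (y - x) := by
    intro x hx y hy
    have h1 := (two x hx y hy).2
    have h2 := hG x hx y hy
    have h3 := le_abs_self (x - y)
    have h4 := neg_le_abs (x - y)
    constructor <;> omega
  obtain ⟨y1, hy1, -, my1⟩ := exists_min (S := Q) (fun _ => True) ⟨q0, hq0, trivial⟩
  obtain ⟨y2, hy2, -, my2⟩ := exists_max (S := Q) (fun _ => True) ⟨q0, hq0, trivial⟩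
  have hy12 : y1 ≤ y2 := my1 y2 hy2 trivial
  obtain ⟨x1, hx1, hx1', mx1⟩ := exists_max (S := P) (fun x => x < y1) ⟨x0, hx0, hx0' y1 hy1⟩
  obtain ⟨xm, hxm, -, mxm⟩ := exists_min (S := P) (fun _ => True) ⟨x0, hx0, trivial⟩
  obtain ⟨xM, hxM, -, mxM⟩ := exists_max (S := P) (fun _ => True) ⟨x0, hx0, trivial⟩
  have bxm := hP xm hxm
  have bxM := hP xM hxM
  have by1 := hQ y1 hy1
  have by2 := hQ y2 hy2
  have bx1 := hP x1 hx1
  have hxm1 : xm ≤ x1 := mxm x1 hx1 trivial
  have hx1M : x1 ≤ xM := mxM x1 hx1 trivial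
  set T : ℤ → ℤ := cnt (P ∪ Q) with hT
  have lT : ∀ s u, s ≤ u → T u - T s ≤ u - s := cnt_lip (P ∪ Q)
  have eT : ∀ s u, s ≤ u → (∀ x ∈ P, s ≤ x → x < u → False) →
      (∀ x ∈ Q, s ≤ x → x < u → False) → T u = T s := by
    intro s u hsu h1 h2
    refine cnt_eq (P ∪ Q) hsu fun x hx => ?_
    rcases Finset.mem_union.1 hx with hx | hx
    · exact h1 x hx
    · exact h2 x hx
  have cPQ : ((P ∪ Q).card : ℤ) = 2 * j := by
    rw [Finset.card_union_of_disjoint]
    · push_cast
      linarith
    · rw [Finset.disjoint_left]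
      exact fun x hx => hPQ x hx
  have T0 : T 0 = 0 := by
    refine cnt_bot _ fun x hx => ?_
    rcases Finset.mem_union.1 hx with hx | hx
    · exact (hP x hx).1
    · exact (hQ x hx).1
  have TN : T N = 2 * j := by
    rw [← cPQ]
    refine cnt_top _ fun x hx => ?_
    rcases Finset.mem_union.1 hx with hx | hx
    · exact (hP x hx).2
    · exact (hQ x hx).2
  have Txm : T xm = T 0 := by
    refine eT 0 xm bxm.1 (fun x hx h1 h2 => ?_) (fun x hx h1 h2 => ?_)
    · have := mxm x hx trivial; omega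
    · have := my1 x hx trivial; omega
  have E1 : T y1 = T (x1 + 1) := by
    refine eT _ _ (by omega) (fun x hx h1 h2 => ?_) (fun x hx h1 h2 => ?_)
    · have := mx1 x hx h2; omega
    · have := my1 x hx trivial; omega
  have D1 : t ≤ 2 * (y1 - x1) := by
    rcases T1 x1 hx1 y1 hy1 with h | h <;> omega
  by_cases hB : ∃ u ∈ P, y1 < u
  · -- at least two switches
    obtain ⟨x2, hx2, hx2', mx2⟩ := exists_min (S := P) (fun x => y1 < x) hB
    have bx2 := hP x2 hx2
    have hx2M : x2 ≤ xM := mxM x2 hx2 trivial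
    by_cases hB1 : ∃ l ∈ Q, x2 < l
    · -- at least three switches
      obtain ⟨a2, ha2, ha2', ma2⟩ := exists_max (S := Q) (fun l => l < x2) ⟨y1, hy1, hx2'⟩
      obtain ⟨y3, hy3, hy3', my3⟩ := exists_min (S := Q) (fun l => x2 < l) hB1
      obtain ⟨a3, ha3, ha3', ma3⟩ := exists_max (S := P) (fun u => u < y3) ⟨x2, hx2, hy3'⟩
      have by3 := hQ y3 hy3
      have h1 : y1 ≤ a2 := my1 a2 ha2 trivial
      have h2 : x2 ≤ a3 := ma3 x2 hx2 hy3'
      have E2 : T x2 = T (a2 + 1) := by
        refine eT _ _ (by omega) (fun x hx h3 h4 => ?_) (fun x hx h3 h4 => ?_)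
        · have := mx2 x hx (by omega); omega
        · have := ma2 x hx h4; omega
      have E3 : T y3 = T (a3 + 1) := by
        refine eT _ _ (by omega) (fun x hx h3 h4 => ?_) (fun x hx h3 h4 => ?_)
        · have := ma3 x hx h4; omega
        · have := my3 x hx (by omega); omega
      have D2 : t ≤ 2 * (x2 - a2) := by
        rcases T1 x2 hx2 a2 ha2 with h | h <;> omega
      have D3 : t ≤ 2 * (y3 - a3) := by
        rcases T1 a3 ha3 y3 hy3 with h | h <;> omega
      have L1 := lT 0 (x1 + 1) (by omega)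
      have L2 := lT y1 (a2 + 1) (by omega)
      have L3 := lT x2 (a3 + 1) (by omega)
      have L4 := lT y3 N (by omega)
      omega
    · -- two switches
      have hQx2 : ∀ l ∈ Q, l < x2 := by
        intro l hl
        rcases lt_trichotomy l x2 with h | h | h
        · exact h
        · exact absurd (h ▸ hl) (hPQ x2 hx2)
        · exact absurd ⟨l, hl, h⟩ hB1
      have hy2x2 : y2 < x2 := hQx2 y2 hy2
      have E2 : T x2 = T (y2 + 1) := by
        refine eT _ _ (by omega) (fun x hx h3 h4 => ?_) (fun x hx h3 h4 => ?_)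
        · have := mx2 x hx (by omega); omega
        · have := my2 x hx trivial; omega
      have D2 : t ≤ 2 * (x2 - y2) := by
        rcases T1 x2 hx2 y2 hy2 with h | h <;> omega
      have hcQ : j ≤ y2 - y1 + 1 := by
        have h1 := cnt_lip Q y1 (y2 + 1) (by omega)
        have h2 : cnt Q (y2 + 1) = j := by
          rw [← hj']; exact cnt_top Q fun x hx => by have := my2 x hx trivial; omega
        have h3 : cnt Q y1 = 0 := cnt_bot Q fun x hx => my1 x hx trivial
        omega
      have L0 := lT y1 (y2 + 1) (by omega)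
      by_cases he : K ≤ y2 - y1
      · -- the inner block is long
        have h1 := cnt_lip P 0 (x1 + 1) (by omega)
        have h2 := cnt_lip P x2 N (by omega)
        have h3 : cnt P x2 = cnt P (x1 + 1) := by
          refine cnt_eq P (by omega) fun x hx h3 h4 => ?_
          by_cases h5 : x < y1
          · have := mx1 x hx h5; omega
          · have h6 : x ≠ y1 := by rintro rfl; exact hPQ x hx hy1
            have := mx2 x hx (by omega); omega
        have h4 : cnt P 0 = 0 := cnt_bot P fun x hx => (hP x hx).1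
        have h5 : cnt P N = j := by
          rw [← hj]; exact cnt_top P fun x hx => (hP x hx).2
        omega
      · obtain ⟨e, hee⟩ : ∃ e, e = K - (y2 - y1) := ⟨_, rfl⟩
        have he1 : 1 ≤ e := by omega
        have R : ∀ x ∈ P, ∀ z ∈ P, x < y1 → y2 < z →
            2 * t ≤ ff e (y1 - x) + ff e (z - y2) := by
          intro x hx z hz h1 h2
          have h3 := four x hx y1 hy1 y2 hy2 z hz h1 hy12 h2 (by omega)
          rw [← hee] at h3
          have h4 := hG x hx y1 hy1
          have h5 := hG z hz y2 hy2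
          omega
        unfold ff at R
        -- the left side
        have LF : (∃ x ∈ P, x < y1 ∧ e ≤ y1 - x ∧ T y1 - T (x + 1) ≤ max 0 (e - (y1 - x1))) ∨
            y1 - xm < e := by
          by_cases hf : ∃ x ∈ P, x ≤ y1 - e
          · left
            obtain ⟨x, hx, hxe, mx⟩ := exists_max (S := P) (fun x => x ≤ y1 - e) hf
            have hxx1 : x ≤ x1 := mx1 x hx (by omega)
            refine ⟨x, hx, by omega, by omega, ?_⟩
            by_cases h1 : e ≤ y1 - x1
            · have h2 : x1 ≤ x := mx x1 hx1 (by omega)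
              have h3 : x1 = x := by omega
              rw [E1, h3]
              omega
            · have h2 : T (y1 - e + 1) = T (x + 1) := by
                refine eT _ _ (by omega) (fun z hz h3 h4 => ?_) (fun z hz h3 h4 => ?_)
                · have := mx z hz (by omega); omega
                · have := my1 z hz trivial; omega
              have h3 := lT (y1 - e + 1) (x1 + 1) (by omega)
              omega
          · right
            by_contra h
            exact hf ⟨xm, hxm, by omega⟩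
        -- the right side
        have RF : (∃ x ∈ P, y2 < x ∧ e ≤ x - y2 ∧ T x - T (y2 + 1) ≤ max 0 (e - (x2 - y2))) ∨
            xM - y2 < e := by
          by_cases hf : ∃ x ∈ P, y2 + e ≤ x
          · left
            obtain ⟨x, hx, hxe, mx⟩ := exists_min (S := P) (fun x => y2 + e ≤ x) hf
            have hxx1 : x2 ≤ x := mx2 x hx (by omega)
            refine ⟨x, hx, by omega, by omega, ?_⟩
            by_cases h1 : e ≤ x2 - y2
            · have h2 : x ≤ x2 := mx x2 hx2 (by omega)
              have h3 : x2 = x := by omega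
              rw [← h3, E2]
              omega
            · have h2 : T x = T (y2 + e) := by
                refine eT _ _ (by omega) (fun z hz h3 h4 => ?_) (fun z hz h3 h4 => ?_)
                · have := mx z hz (by omega); omega
                · have := my2 z hz trivial; omega
              have h3 := lT x2 (y2 + e) (by omega)
              omega
          · right
            by_contra h
            exact hf ⟨xM, hxM, by omega⟩
        have TxM : T N = T (xM + 1) := by
          refine eT _ _ (by omega) (fun z hz h3 h4 => ?_) (fun z hz h3 h4 => ?_)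
          · have := mxM z hz trivial; omega
          · have := hQx2 z hz; omega
        have A1 := T2 xm hxm y2 hy2
        have A2 := T2 xM hxM y1 hy1
        rcases LF with ⟨x, hx, hx', hxe, hTx⟩ | hLF
        · rcases RF with ⟨z, hz, hz', hze, hTz⟩ | hRF
          · have r := R x hx z hz hx' hz'
            have b1 := hP x hx
            have b2 := hP z hz
            have L1 := lT 0 (x + 1) (by omega)
            have L2 := lT z N (by omega)
            omega
          · have r := R x hx xM hxM hx' (by omega)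
            have b1 := mxm x hx trivial
            have L1 := lT xm (x + 1) (by omega)
            have L2 := lT x2 (xM + 1) (by omega)
            omega
        · rcases RF with ⟨z, hz, hz', hze, hTz⟩ | hRF
          · have r := R xm hxm z hz (by omega) hz'
            have b1 := mxM z hz trivial
            have L1 := lT xm (x1 + 1) (by omega)
            have L2 := lT z (xM + 1) (by omega)
            omega
          · have r := R xm hxm xM hxM (by omega) (by omega)
            have L1 := lT xm (x1 + 1) (by omega)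
            have L2 := lT x2 (xM + 1) (by omega)
            have D3 : 3 * t ≤ 4 * K := by omega
            omega
  · -- one switch
    have hPy1 : ∀ x ∈ P, x < y1 := by
      intro x hx
      rcases lt_trichotomy x y1 with h | h | h
      · exact h
      · exact absurd (h ▸ hy1) (hPQ x hx)
      · exact absurd ⟨x, hx, h⟩ hB
    have E2 : T N = T (y2 + 1) := by
      refine eT _ _ (by omega) (fun x hx h3 h4 => ?_) (fun x hx h3 h4 => ?_)
      · have := hPy1 x hx; omega
      · have := my2 x hx trivial; omega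
    have A1 := T2 xm hxm y2 hy2
    have L1 := lT xm (x1 + 1) (by omega)
    have L2 := lT y1 (y2 + 1) (by omega)
    omega

/-- The level lemma. -/
lemma level {N K t : ℤ} {P Q : Finset ℤ} {G : ℤ → ℤ} (hN : N = 2 * K)
    (hP : ∀ x ∈ P, 0 ≤ x ∧ x < N) (hQ : ∀ x ∈ Q, 0 ≤ x ∧ x < N)
    (hPQ : ∀ x ∈ P, x ∉ Q) {j : ℤ} (hj : (P.card : ℤ) = j) (hj' : (Q.card : ℤ) = j)
    (hj1 : 1 ≤ j) (ht : 1 ≤ t) (hG : ∀ x ∈ P, ∀ y ∈ Q, t ≤ G x + G y)
    (two : Two N G P Q) (four : Four K G P Q) (four' : Four K G Q P) :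
    4 * j ≤ 2 * N - 3 * t + 6 := by
  have hPne : P.Nonempty := by
    rw [← Finset.card_pos]; omega
  have hQne : Q.Nonempty := by
    rw [← Finset.card_pos]; omega
  obtain ⟨p0, hp0⟩ := hPne
  obtain ⟨q0, hq0⟩ := hQne
  obtain ⟨y1, hy1, -, my1⟩ := exists_min (S := Q) (fun _ => True) ⟨q0, hq0, trivial⟩
  obtain ⟨x1, hx1, -, mx1⟩ := exists_min (S := P) (fun _ => True) ⟨p0, hp0, trivial⟩
  rcases lt_trichotomy x1 y1 with h | h | h
  · exact level_aux hN hP hQ hPQ hj hj' ⟨q0, hq0⟩ ht hG two four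
      ⟨x1, hx1, fun y hy => lt_of_lt_of_le h (my1 y hy trivial)⟩
  · exact absurd (h ▸ hy1) (hPQ x1 hx1)
  · refine level_aux hN hQ hP (fun x hx hx' => hPQ x hx' hx) hj' hj ⟨p0, hp0⟩ ht
      (fun x hx y hy => ?_) (fun x hx y hy => ?_) four'
      ⟨y1, hy1, fun x hx => lt_of_lt_of_le h (mx1 x hx trivial)⟩
    · rw [add_comm]; exact hG y hy x hx
    · rw [add_comm, abs_sub_comm]; exact two y hy x hx

end Pool.Agent.Lib.MP_2d7a7c_co.PQ
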