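import Pool.Agent.Lib.MP_2d7a7c_co.PQ.Base

/-! Peaceable queens, project PQ (helper45): inequalities for two and four pairs of columns. -/

set_option autoImplicit false

namespace Pool.Agent.Lib.MP_2d7a7c_co.PQ

/-- Two antipodal pairs, short distance. -/
lemma pair_two {N D : ℤ} {u u' v v' : ℤ → ℤ} (hD : 0 ≤ D) (hDN : D ≤ N)
    (lu : Lip u) (lu' : Lip u') (lv : Lip v) (lv' : Lip v')
    (zu : u 0 = 0) (zu' : u' 0 = 0) (zv : v 0 = 0) (zv' : v' 0 = 0)
    (h1 : Opp (D + N) u v') (h2 : Opp (N - D) u' v) :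
    u N + u' N + v N + v' N ≤ 2 * N + 2 * D := by
  have a1 := h1.use D N D N hDN (by ring) (by ring)
  have a2 := h2.use 0 (N - D) 0 (N - D) (by omega) (by ring) (by ring)
  have b1 := lu 0 D hD
  have b2 := lv' 0 D hD
  have b3 := lu' (N - D) N (by omega)
  have b4 := lv (N - D) N (by omega)
  linarith

/-- Two antipodal pairs, long distance. -/
lemma pair_long {N D : ℤ} {u u' v v' : ℤ → ℤ} (hD : 0 ≤ D) (hDN : D ≤ N)
    (lu' : Lip u') (lv : Lip v)
    (zu : u 0 = 0) (zu' : u' 0 = 0) (zv : v 0 = 0) (zv' : v' 0 = 0)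
    (h1 : Opp D u v) (h2 : Opp (D + N) u v') (h3 : Opp D u' v') :
    u N + u' N + v N + v' N ≤ 3 * N - D := by
  have a1 := h1.use 0 D 0 D hD (by ring) (by ring)
  have a2 := h2.use D N D N hDN (by ring) (by ring)
  have a3 := h3.use 0 D 0 D hD (by ring) (by ring)
  have b3 := lu' D N (by omega)
  have b4 := lv D N (by omega)
  linarith

/-- Half of the certificate for four pairs. -/
lemma half {N l e g1 g2 al1 be2 w1 w2 : ℤ} {X X' Z y V U : ℤ → ℤ}
    (hN : N = 2 * (l + e)) (hl : 0 ≤ l) (he : 0 ≤ e) (hg1 : 0 ≤ g1) (hg2 : 0 ≤ g2)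
    (hg1' : g1 + l ≤ N) (ha : 0 ≤ al1) (hw1 : w1 ≤ g1 - al1) (hw1l : w1 ≤ l) (hw10 : 0 ≤ w1)
    (hw2 : 0 ≤ w2) (hw2l : w2 ≤ l) (hb2 : 2 * e ≤ g2 + be2) (hb2' : g2 + be2 ≤ N)
    (hb20 : 0 ≤ be2)
    (zX : X 0 = 0) (zX' : X' 0 = 0) (zy : y 0 = 0) (zU : U 0 = 0)
    (lV : Lip V) (lU : Lip U)
    (h1 : Opp (g1 + l) X y) (h2 : Opp (N + g1) X V) (h4 : Opp (N + g1 + l) X U)
    (h6 : Opp (g1 + l) X' U) (h7 : Opp g1 X' V) (h8 : Opp (N - g2) Z U) :
    X N + X' al1 + (Z (N - g2) - Z be2) + (y (l + g1) - y l) + y w2 +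
      (V N - V (N - (l - w2))) + (V l - V w1) + U N ≤ N + g1 + 2 * l - w1 := by
  have m1 := h1.use 0 g1 l (l + g1) hg1 (by ring) (by ring)
  have m2 := h2.use g1 (g1 + (l - w2)) (N - (l - w2)) N (by omega) (by ring) (by ring)
  have m3 := h1.use (g1 + (l - w2)) (g1 + l) 0 w2 (by omega) (by ring) (by ring)
  have m8 := h8.use be2 (N - g2) 0 (N - g2 - be2) (by omega) (by ring) (by ring)
  by_cases hA : l + g2 + be2 ≤ N - g1
  · have m4 := h4.use (g1 + l) (g1 + (l + g2 + be2)) (N - g2 - be2) N (by omega) (by ring) (by ring)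
    have m5 := h2.use (g1 + (l + g2 + be2)) N g1 (N - (l + g2 + be2)) (by omega) (by ring) (by ring)
    have m7 := h7.use 0 al1 (g1 - al1) g1 ha (by ring) (by ring)
    have b1 := lV w1 (g1 - al1) (by omega)
    have b2 := lV (N - (l + g2 + be2)) l (by omega)
    linarith
  · by_cases hB : l + g2 + be2 ≤ N - g1 + al1
    · have m4 := h4.use (g1 + l) N (l + g1) N (by omega) (by ring) (by ring)
      have m6 := h6.use 0 (l + g2 + be2 - N + g1) (N - g2 - be2) (l + g1) (by omega)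
        (by ring) (by ring)
      have m7 := h7.use (l + g2 + be2 - N + g1) al1 (g1 - al1) (N - (l + g2 + be2)) (by omega)
        (by ring) (by ring)
      have b1 := lV w1 (g1 - al1) (by omega)
      have b2 := lV (N - (l + g2 + be2)) l (by omega)
      linarith
    · have m4 := h4.use (g1 + l) N (l + g1) N (by omega) (by ring) (by ring)
      have m6 := h6.use 0 al1 (l + g1 - al1) (l + g1) ha (by ring) (by ring)
      have b0 := lU (N - g2 - be2) (l + g1 - al1) (by omega)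
      have b1 := lV w1 l (by omega)
      linarith

/-- The bound of one side. -/
def ff (e g : ℤ) : ℤ := max g (2 * e - g)

/-- Parameters of one side. -/
lemma regime (e g : ℤ) (he : 0 ≤ e) (hg : 0 ≤ g) : ∃ a b w : ℤ, 0 ≤ a ∧ a ≤ b ∧ 0 ≤ w ∧
    w ≤ g - a ∧ 2 * e ≤ g + b ∧ g ≤ 2 * e + w ∧ b - a + g = ff e g ∧
    (g + b = max g (2 * e)) ∧ w = max 0 (g - 2 * e) := by
  unfold ff
  rcases le_total g e with h | h
  · exact ⟨g, 2 * e - g, 0, by omega, by omega, by omega, by omega, by omega, by omega,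
      by omega, by omega, by omega⟩
  · rcases le_total g (2 * e) with h' | h'
    · exact ⟨2 * e - g, 2 * e - g, 0, by omega, by omega, by omega, by omega, by omega, by omega,
        by omega, by omega, by omega⟩
    · exact ⟨0, 0, g - 2 * e, by omega, by omega, by omega, by omega, by omega, by omega,
        by omega, by omega, by omega⟩

/-- The certificate for four antipodal pairs. -/
lemma four {N l e g1 g2 : ℤ} {X1 X1' Y1 Y1' Y2 Y2' X2 X2' : ℤ → ℤ}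
    (hN : N = 2 * (l + e)) (hl : 0 ≤ l) (he : 0 ≤ e) (hg1 : 0 ≤ g1) (hg2 : 0 ≤ g2)
    (hcap : max g1 e + max g2 e ≤ l + 2 * e)
    (zX1 : X1 0 = 0) (zX1' : X1' 0 = 0) (zX2 : X2 0 = 0) (zX2' : X2' 0 = 0)
    (zY1 : Y1 0 = 0) (zY1' : Y1' 0 = 0) (zY2 : Y2 0 = 0) (zY2' : Y2' 0 = 0)
    (lX1' : Lip X1') (lX2 : Lip X2)
    (lY1 : Lip Y1) (lY1' : Lip Y1') (lY2 : Lip Y2) (lY2' : Lip Y2')
    (o1 : Opp (g1 + l) X1 Y2) (o2 : Opp (N + g1) X1 Y1') (o3 : Opp (N + g1 + l) X1 Y2')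
    (o4 : Opp (g1 + l) X1' Y2') (o5 : Opp g1 X1' Y1') (o6 : Opp (N - g2) X2 Y2')
    (p1 : Opp (g2 + l) X2' Y1') (p2 : Opp (N + g2) X2' Y2) (p3 : Opp (N + g2 + l) X2' Y1)
    (p4 : Opp (g2 + l) X2 Y1) (p5 : Opp g2 X2 Y2) (p6 : Opp (N - g1) X1' Y1) :
    X1 N + X1' N + Y1 N + Y1' N + Y2 N + Y2' N + X2 N + X2' N ≤ 4 * N + ff e g1 + ff e g2 := by
  obtain ⟨a1, b1, w1, c1, c2, c3, c4, c5, c6, c7, c8, c9⟩ := regime e g1 he hg1
  obtain ⟨a2, b2, w2, d1, d2, d3, d4, d5, d6, d7, d8, d9⟩ := regime e g2 he hg2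
  have HL := half (N := N) (l := l) (e := e) (g1 := g1) (g2 := g2) (al1 := a1) (be2 := b2)
    (w1 := w1) (w2 := w2) hN hl he hg1 hg2 (by omega) c1 c4 (by omega) c3 d3 (by omega) d5
    (by omega) (by omega) zX1 zX1' zY2 zY2' lY1' lY2' o1 o2 o3 o4 o5 o6
  have HR := half (N := N) (l := l) (e := e) (g1 := g2) (g2 := g1) (al1 := a2) (be2 := b1)
    (w1 := w2) (w2 := w1) hN hl he hg2 hg1 (by omega) d1 d4 (by omega) d3 c3 (by omega) c5
    (by omega) (by omega) zX2' zX2 zY1' zY1 lY2 lY1 p1 p2 p3 p4 p5 p6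
  have g1a := lX1' a1 b1 c2
  have g1b := lX1' (N - g1) N (by omega)
  have g2a := lX2 a2 b2 d2
  have g2b := lX2 (N - g2) N (by omega)
  have g3 := lY2 (l + g1) (N - (l - w1)) (by omega)
  have g4 := lY1' (l + g2) (N - (l - w2)) (by omega)
  linarith

end Pool.Agent.Lib.MP_2d7a7c_co.PQ
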