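import Pool.Agent.Lib.MP_2d7a7c_co.PQ.Level

/-! Peaceable queens, project PQ (helper45): summation over the levels. -/

set_option autoImplicit false

namespace Pool.Agent.Lib.MP_2d7a7c_co.PQ

/-- Opposite colours of the antipodal pairs `{x, x+N}` and `{y, y+N}`. -/
def Anti (N : ℤ) (c : ℤ → ℤ → ℤ) (x y : ℤ) : Prop :=
  Opp |x - y| (c x) (c y) ∧ Opp |x - (y + N)| (c x) (c (y + N)) ∧
    Opp |x + N - y| (c (x + N)) (c y) ∧ Opp |x + N - (y + N)| (c (x + N)) (c (y + N))

lemma Anti.symm {N : ℤ} {c : ℤ → ℤ → ℤ} {x y : ℤ} (h : Anti N c x y) : Anti N c y x := by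
  obtain ⟨h1, h2, h3, h4⟩ := h
  refine ⟨?_, ?_, ?_, ?_⟩
  · rw [abs_sub_comm]; exact h1.symm
  · rw [abs_sub_comm]; exact h3.symm
  · rw [abs_sub_comm]; exact h2.symm
  · rw [abs_sub_comm]; exact h4.symm

/-- Excess of an antipodal pair. -/
def GG (N : ℤ) (c : ℤ → ℤ → ℤ) (x : ℤ) : ℤ := c x N + c (x + N) N - N

lemma two_lt {N : ℤ} {c : ℤ → ℤ → ℤ} (lip : ∀ v, Lip (c v)) (z : ∀ v, c v 0 = 0) {x y : ℤ}
    (hx : 0 ≤ x) (hy : y < N) (hxy : x < y) (h : Anti N c x y) :
    GG N c x + GG N c y ≤ 2 * (y - x) ∧ GG N c x + GG N c y ≤ N - (y - x) := by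
  obtain ⟨h1, h2, h3, h4⟩ := h
  have e1 : |x - y| = y - x := by rw [abs_of_neg (by omega)]; ring
  have e2 : |x - (y + N)| = y - x + N := by rw [abs_of_neg (by omega)]; ring
  have e3 : |x + N - y| = N - (y - x) := by rw [abs_of_nonneg (by omega)]; ring
  have e4 : |x + N - (y + N)| = y - x := by rw [abs_of_neg (by omega)]; ring
  rw [e1] at h1
  rw [e2] at h2
  rw [e3] at h3
  rw [e4] at h4
  have a := pair_two (N := N) (D := y - x) (by omega) (by omega) (lip _) (lip _) (lip _) (lip _)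
    (z _) (z _) (z _) (z _) h2 h3
  have b := pair_long (N := N) (D := y - x) (by omega) (by omega) (lip _) (lip _)
    (z _) (z _) (z _) (z _) h1 h2 h4
  unfold GG
  constructor <;> linarith

lemma two_of {N : ℤ} {c : ℤ → ℤ → ℤ} (lip : ∀ v, Lip (c v)) (z : ∀ v, c v 0 = 0)
    {P Q : Finset ℤ} (hP : ∀ x ∈ P, 0 ≤ x ∧ x < N) (hQ : ∀ x ∈ Q, 0 ≤ x ∧ x < N)
    (hPQ : ∀ x ∈ P, x ∉ Q) (h : ∀ x ∈ P, ∀ y ∈ Q, Anti N c x y) : Two N (GG N c) P Q := by
  intro x hx y hy
  have b1 := hP x hx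
  have b2 := hQ y hy
  rcases lt_trichotomy x y with h1 | h1 | h1
  · have h2 := two_lt lip z b1.1 b2.2 h1 (h x hx y hy)
    rw [abs_of_neg (by omega : x - y < 0)]
    constructor
    · linarith [h2.1]
    · linarith [h2.2]
  · exact absurd (h1 ▸ hy) (hPQ x hx)
  · have h2 := two_lt lip z b2.1 b1.2 h1 (h x hx y hy).symm
    rw [abs_of_pos (by omega : 0 < x - y)]
    constructor
    · linarith [h2.1]
    · linarith [h2.2]

lemma four_of {N K : ℤ} {c : ℤ → ℤ → ℤ} (hN : N = 2 * K) (lip : ∀ v, Lip (c v))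
    (z : ∀ v, c v 0 = 0)
    {P Q : Finset ℤ} (hP : ∀ x ∈ P, 0 ≤ x ∧ x < N) (hQ : ∀ x ∈ Q, 0 ≤ x ∧ x < N)
    (hPQ : ∀ x ∈ P, x ∉ Q) (h : ∀ x ∈ P, ∀ y ∈ Q, Anti N c x y) : Four K (GG N c) P Q := by
  intro x1 hx1 y1 hy1 y2 hy2 x2 hx2 h1 h2 h3 h4
  have two := two_of lip z hP hQ hPQ h
  have b1 := hP x1 hx1
  have b2 := hP x2 hx2
  have b3 := hQ y1 hy1
  have b4 := hQ y2 hy2
  by_cases hcap : max (y1 - x1) (K - (y2 - y1)) + max (x2 - y2) (K - (y2 - y1)) ≤
      (y2 - y1) + 2 * (K - (y2 - y1))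
  · obtain ⟨p1, p2, p3, p4⟩ := h x1 hx1 y1 hy1
    obtain ⟨q1, q2, q3, q4⟩ := h x1 hx1 y2 hy2
    obtain ⟨r1, r2, r3, r4⟩ := h x2 hx2 y1 hy1
    obtain ⟨s1, s2, s3, s4⟩ := h x2 hx2 y2 hy2
    have hg1 : y1 - x1 ≤ K := by omega
    have hg2 : x2 - y2 ≤ K := by omega
    have ep2 : |x1 - (y1 + N)| = N + (y1 - x1) := by rw [abs_of_neg (by omega)]; ring
    have ep3 : |x1 + N - y1| = N - (y1 - x1) := by rw [abs_of_nonneg (by omega)]; ring
    have ep4 : |x1 + N - (y1 + N)| = y1 - x1 := by rw [abs_of_neg (by omega)]; ring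
    have eq1 : |x1 - y2| = (y1 - x1) + (y2 - y1) := by rw [abs_of_neg (by omega)]; ring
    have eq2 : |x1 - (y2 + N)| = N + (y1 - x1) + (y2 - y1) := by
      rw [abs_of_neg (by omega)]; ring
    have eq4 : |x1 + N - (y2 + N)| = (y1 - x1) + (y2 - y1) := by
      rw [abs_of_neg (by omega)]; ring
    have er1 : |x2 - y1| = (x2 - y2) + (y2 - y1) := by rw [abs_of_pos (by omega)]; ring
    have er3 : |x2 + N - y1| = N + (x2 - y2) + (y2 - y1) := by rw [abs_of_pos (by omega)]; ring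
    have er4 : |x2 + N - (y1 + N)| = (x2 - y2) + (y2 - y1) := by
      rw [abs_of_pos (by omega)]; ring
    have es1 : |x2 - y2| = x2 - y2 := by rw [abs_of_pos (by omega)]
    have es2 : |x2 - (y2 + N)| = N - (x2 - y2) := by
      rw [abs_of_nonpos (by omega)]; ring
    have es3 : |x2 + N - y2| = N + (x2 - y2) := by rw [abs_of_pos (by omega)]; ring
    rw [ep2] at p2
    rw [ep3] at p3
    rw [ep4] at p4
    rw [eq1] at q1
    rw [eq2] at q2
    rw [eq4] at q4
    rw [er1] at r1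
    rw [er3] at r3
    rw [er4] at r4
    rw [es1] at s1
    rw [es2] at s2
    rw [es3] at s3
    have H := four (N := N) (l := y2 - y1) (e := K - (y2 - y1)) (g1 := y1 - x1) (g2 := x2 - y2)
      (X1 := c x1) (X1' := c (x1 + N)) (Y1 := c y1) (Y1' := c (y1 + N)) (Y2 := c y2)
      (Y2' := c (y2 + N)) (X2 := c x2) (X2' := c (x2 + N))
      (by omega) (by omega) (by omega) (by omega) (by omega) hcap
      (z _) (z _) (z _) (z _) (z _) (z _) (z _) (z _) (lip _) (lip _) (lip _) (lip _) (lip _)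
      (lip _) q1 p2 q2 q4 p4 s2 r4 s3 r3 r1 s1 p3
    unfold GG
    linarith
  · have A1 := (two x1 hx1 y2 hy2).2
    have A2 := (two x2 hx2 y1 hy1).2
    rw [abs_of_neg (by omega : x1 - y2 < 0)] at A1
    rw [abs_of_pos (by omega : 0 < x2 - y1)] at A2
    unfold ff
    omega

/-- Summation over the levels. -/
lemma sum_levels {N K : ℤ} {A A' : Finset ℤ} {G : ℤ → ℤ} (hN : N = 2 * K)
    (hA : ∀ x ∈ A, 0 ≤ x ∧ x < N) (hA' : ∀ x ∈ A', 0 ≤ x ∧ x < N)
    (hAA : ∀ x ∈ A, x ∉ A') (two : Two N G A A') (four : Four K G A A')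
    (four' : Four K G A' A) : ∀ j : ℕ, ∀ U ⊆ A, ∀ L ⊆ A', U.card = j → L.card = j →
      6 * (∑ x ∈ U, G x + ∑ x ∈ L, G x) ≤ (N + 2) ^ 2 - (max 0 (N + 2 - 2 * (j : ℤ))) ^ 2 := by
  intro j
  induction j with
  | zero =>
    intro U _ L _ hU' hL'
    rw [Finset.card_eq_zero] at hU' hL'
    subst hU'
    subst hL'
    have h1 : max 0 (N + 2 - 2 * ((0 : ℕ) : ℤ)) ^ 2 ≤ (N + 2) ^ 2 := by
      rcases le_total 0 (N + 2) with h | h
      · rw [max_eq_right (by push_cast; omega)]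
        push_cast
        apply le_of_eq; ring
      · rw [max_eq_left (by push_cast; omega)]
        nlinarith [sq_nonneg (N + 2)]
    simp only [Finset.sum_empty, add_zero, mul_zero]
    omega
  | succ j ih =>
    intro U hU L hL hUc hLc
    have hUne : U.Nonempty := by rw [← Finset.card_pos]; omega
    have hLne : L.Nonempty := by rw [← Finset.card_pos]; omega
    obtain ⟨u, hu, mu⟩ := Finset.exists_min_image U G hUne
    obtain ⟨l, hl, ml⟩ := Finset.exists_min_image L G hLne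
    have h1 := ih (U.erase u) ((Finset.erase_subset _ _).trans hU) (L.erase l)
      ((Finset.erase_subset _ _).trans hL)
      (by rw [Finset.card_erase_of_mem hu]; omega) (by rw [Finset.card_erase_of_mem hl]; omega)
    have h2 := Finset.add_sum_erase U G hu
    have h3 := Finset.add_sum_erase L G hl
    have h4 : 6 * (G u + G l) ≤ (max 0 (N + 2 - 2 * (j : ℤ))) ^ 2 -
        (max 0 (N + 2 - 2 * ((j + 1 : ℕ) : ℤ))) ^ 2 := by
      push_cast
      rcases le_or_gt (G u + G l) 0 with h5 | h5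
      · have h6 : max 0 (N + 2 - 2 * ((j : ℤ) + 1)) ≤ max 0 (N + 2 - 2 * (j : ℤ)) := by omega
        have h7 : 0 ≤ max 0 (N + 2 - 2 * ((j : ℤ) + 1)) := le_max_left _ _
        nlinarith
      · have h6 := level (t := G u + G l) (j := (j : ℤ) + 1) hN (fun x hx => hA x (hU hx))
          (fun x hx => hA' x (hL hx)) (fun x hx hx' => hAA x (hU hx) (hL hx'))
          (by rw [hUc]; push_cast; ring) (by rw [hLc]; push_cast; ring) (by omega) (by omega)
          (fun x hx y hy => add_le_add (mu x hx) (ml y hy))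
          (fun x hx y hy => two x (hU hx) y (hL hy))
          (fun x1 hx1 y1 hy1 y2 hy2 x2 hx2 => four x1 (hU hx1) y1 (hL hy1) y2 (hL hy2) x2 (hU hx2))
          (fun x1 hx1 y1 hy1 y2 hy2 x2 hx2 => four' x1 (hL hx1) y1 (hU hy1) y2 (hU hy2) x2 (hL hx2))
        rw [max_eq_right (by omega), max_eq_right (by omega)]
        nlinarith
    rw [← h2, ← h3]
    linarith

lemma sum_pairs {N : ℤ} (hN : 0 ≤ N) (f : ℤ → ℤ) :
    ∑ v ∈ Finset.Ico 0 (2 * N), f v = ∑ x ∈ Finset.Ico 0 N, (f x + f (x + N)) := by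
  rw [Finset.sum_add_distrib]
  have h1 : Finset.Ico 0 (2 * N) = Finset.Ico 0 N ∪ Finset.Ico N (2 * N) := by
    ext x
    simp only [Finset.mem_union, Finset.mem_Ico]
    omega
  have h2 : Disjoint (Finset.Ico 0 N) (Finset.Ico N (2 * N)) := by
    rw [Finset.disjoint_left]
    intro x hx hx'
    simp only [Finset.mem_Ico] at hx hx'
    omega
  rw [h1, Finset.sum_union h2]
  congr 1
  refine (Finset.sum_bij (fun x _ => x + N) ?_ ?_ ?_ ?_).symm
  · intro x hx
    simp only [Finset.mem_Ico] at hx ⊢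
    omega
  · intro x _ y _ h
    omega
  · intro y hy
    simp only [Finset.mem_Ico] at hy
    exact ⟨y - N, by simp only [Finset.mem_Ico]; omega, by ring⟩
  · intro x _
    rfl

/-- The theorem for a system of columns. -/
theorem core {N K : ℤ} (hN : N = 2 * K) (hK : 0 ≤ K) {c : ℤ → ℤ → ℤ} {C : Finset ℤ}
    (hC : C ⊆ Finset.Ico 0 (2 * N)) (hCc : (C.card : ℤ) = N) (lip : ∀ v, Lip (c v))
    (z : ∀ v, c v 0 = 0)
    (opp : ∀ u ∈ C, ∀ v, 0 ≤ v → v < 2 * N → v ∉ C → Opp |u - v| (c u) (c v)) :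
    6 * ∑ v ∈ Finset.Ico 0 (2 * N), c v N ≤ 6 * N ^ 2 + (N + 2) ^ 2 := by
  classical
  have hN0 : 0 ≤ N := by omega
  set A := (Finset.Ico 0 N).filter (fun x => x ∈ C ∧ x + N ∈ C) with hA
  set A' := (Finset.Ico 0 N).filter (fun x => x ∉ C ∧ x + N ∉ C) with hA'
  have bA : ∀ x ∈ A, 0 ≤ x ∧ x < N := by
    intro x hx
    simp only [hA, Finset.mem_filter, Finset.mem_Ico] at hx
    exact hx.1
  have bA' : ∀ x ∈ A', 0 ≤ x ∧ x < N := by
    intro x hx
    simp only [hA', Finset.mem_filter, Finset.mem_Ico] at hx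
    exact hx.1
  have hAA : ∀ x ∈ A, x ∉ A' := by
    intro x hx hx'
    simp only [hA, hA', Finset.mem_filter, Finset.mem_Ico] at hx hx'
    exact hx'.2.1 hx.2.1
  have hAA' : ∀ x ∈ A', x ∉ A := fun x hx hx' => hAA x hx' hx
  have anti : ∀ x ∈ A, ∀ y ∈ A', Anti N c x y := by
    intro x hx y hy
    have b1 := bA x hx
    have b2 := bA' y hy
    simp only [hA, hA', Finset.mem_filter, Finset.mem_Ico] at hx hy
    exact ⟨opp x hx.2.1 y (by omega) (by omega) hy.2.1,
      opp x hx.2.1 (y + N) (by omega) (by omega) hy.2.2,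
      opp (x + N) hx.2.2 y (by omega) (by omega) hy.2.1,
      opp (x + N) hx.2.2 (y + N) (by omega) (by omega) hy.2.2⟩
  have anti' : ∀ x ∈ A', ∀ y ∈ A, Anti N c x y := fun x hx y hy => (anti y hy x hx).symm
  have two := two_of lip z bA bA' hAA anti
  have four1 := four_of hN lip z bA bA' hAA anti
  have four2 := four_of hN lip z bA' bA hAA' anti'
  -- the two families have the same size
  have hcard : A.card = A'.card := by
    have h1 : (C.card : ℤ) = ∑ v ∈ Finset.Ico 0 (2 * N), (if v ∈ C then (1 : ℤ) else 0) := by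
      rw [← Finset.sum_filter, Finset.filter_mem_eq_inter, Finset.inter_eq_right.2 hC]
      simp
    rw [sum_pairs hN0] at h1
    have h2 : ∀ x ∈ Finset.Ico 0 N, ((if x ∈ C then (1 : ℤ) else 0) +
        (if x + N ∈ C then (1 : ℤ) else 0)) = 1 + (if x ∈ C ∧ x + N ∈ C then (1 : ℤ) else 0) -
        (if x ∉ C ∧ x + N ∉ C then (1 : ℤ) else 0) := by
      intro x _
      by_cases h3 : x ∈ C <;> by_cases h4 : x + N ∈ C <;> simp [h3, h4]
    rw [Finset.sum_congr rfl h2, Finset.sum_sub_distrib, Finset.sum_add_distrib,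
      ← Finset.sum_filter, ← Finset.sum_filter, ← hA, ← hA'] at h1
    simp only [Finset.sum_const, nsmul_eq_mul, mul_one, Int.card_Ico] at h1
    rw [hCc] at h1
    have h5 : (((N - 0).toNat : ℕ) : ℤ) = N := by omega
    rw [h5] at h1
    omega
  have main := sum_levels hN bA bA' hAA two four1 four2 A.card A (Finset.Subset.refl _) A'
    (Finset.Subset.refl _) rfl hcard.symm
  -- the total
  rw [sum_pairs hN0]
  have h6 : ∀ x ∈ Finset.Ico 0 N, c x N + c (x + N) N ≤ N +
      ((if x ∈ C ∧ x + N ∈ C then GG N c x else 0) +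
        (if x ∉ C ∧ x + N ∉ C then GG N c x else 0)) := by
    intro x hx
    rw [Finset.mem_Ico] at hx
    have mixed : Opp N (c x) (c (x + N)) → c x N + c (x + N) N ≤ N := by
      intro h
      have h7 := h.use 0 N 0 N hN0 (by ring) (by ring)
      rw [z, z] at h7
      linarith
    by_cases h3 : x ∈ C <;> by_cases h4 : x + N ∈ C
    · simp only [h3, h4, and_self, not_true_eq_false, if_true, if_false]
      unfold GG; linarith
    · simp only [h3, h4, and_false, not_true_eq_false, not_false_eq_true, and_true, if_false]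
      have h8 := opp x h3 (x + N) (by omega) (by omega) h4
      rw [abs_of_nonpos (by omega)] at h8
      have h9 : -(x - (x + N)) = N := by ring
      rw [h9] at h8
      linarith [mixed h8]
    · simp only [h3, h4, not_true_eq_false, and_true, and_false, if_false]
      have h8 := opp (x + N) h4 x (by omega) (by omega) h3
      rw [abs_of_nonneg (by omega)] at h8
      have h9 : x + N - x = N := by ring
      rw [h9] at h8
      linarith [mixed h8.symm]
    · simp only [h3, h4, not_false_eq_true, and_self, if_true, if_false]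
      unfold GG; linarith
  have h5 : (((N - 0).toNat : ℕ) : ℤ) = N := by omega
  have h7 : ∑ x ∈ Finset.Ico 0 N, (c x N + c (x + N) N) ≤
      N * N + (∑ x ∈ A, GG N c x + ∑ x ∈ A', GG N c x) := by
    refine (Finset.sum_le_sum h6).trans (le_of_eq ?_)
    rw [Finset.sum_add_distrib (f := fun _ => N), Finset.sum_add_distrib, ← Finset.sum_filter,
      ← Finset.sum_filter, ← hA, ← hA']
    simp only [Finset.sum_const, nsmul_eq_mul, Int.card_Ico]
    rw [h5]
  have h8 := sq_nonneg (max 0 (N + 2 - 2 * (A.card : ℤ)))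
  nlinarith

end Pool.Agent.Lib.MP_2d7a7c_co.PQ
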