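import Pool.Agent.Lib.MP_2d7a7c_co.PQ.Anti2
import Pool.Agent.Lib.MP_2d7a7c_co.PQ.Arith2

/-! Peaceable queens, project PQ (helper45): the weighted sum. -/

set_option autoImplicit false

namespace Pool.Agent.Lib.MP_2d7a7c_co.PQ

/-- The bound of one unit of mass. -/
lemma unit_bound {N K t p q : ℤ} {x y : ℝ} (hN : N = 2 * K) (hpq : q ≤ p) (hx : x ≤ p) (hy : y ≤ q)
    (hxy : x + y ≤ N)
    (h : 1 ≤ t → 3 * t ≤ 2 * (N - p - q) + 6 ∨ 9 * t ≤ 2 * (N - p - q) + 7 * (K - p) + 15 ∨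
      9 * t ≤ 2 * (N - p - q) + 7 * (K - q) + 15) :
    (t : ℝ) ≤ (2 / 3 * (N - x - y) + 2) + max 0 ((-(N / 2) + 4 * x - 3 * y) / 9) := by
  have hm0 := le_max_left (0 : ℝ) ((-(N / 2) + 4 * x - 3 * y) / 9)
  have hm1 := le_max_right (0 : ℝ) ((-(N / 2) + 4 * x - 3 * y) / 9)
  have hNK : (N : ℝ) = 2 * K := by exact_mod_cast hN
  by_cases ht : 1 ≤ t
  · rcases h ht with h1 | h1 | h1
    · have h2 : (3 : ℝ) * t ≤ 2 * (N - p - q) + 6 := by exact_mod_cast h1
      linarith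
    · have h2 : (9 : ℝ) * t ≤ 2 * (N - p - q) + 7 * (K - p) + 15 := by exact_mod_cast h1
      have h3 : (q : ℝ) ≤ p := by exact_mod_cast hpq
      linarith
    · have h2 : (9 : ℝ) * t ≤ 2 * (N - p - q) + 7 * (K - q) + 15 := by exact_mod_cast h1
      linarith
  · have h2 : (t : ℝ) ≤ 0 := by exact_mod_cast (by omega : t ≤ 0)
    linarith

lemma sum_core {N K : ℤ} (hN : N = 2 * K) {A A' Mx : Finset ℤ} {G b : ℤ → ℤ} {w d : ℕ}
    (hw : 0 < w) (hNw : N = w + d)
    (hA : ∀ x ∈ A, 0 ≤ x ∧ x < N) (hA' : ∀ x ∈ A', 0 ≤ x ∧ x < N)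
    (hAA : ∀ x ∈ A, x ∉ A') (two : Two N G A A') (four : Four2 K G A A')
    (four' : Four2 K G A' A) (three : Three N G A A') (three' : Three N G A' A)
    (hcard : A.card + A'.card + Mx.card = w + d) (hdiff : A.card = A'.card + d)
    (cap : ∀ x ∈ Mx, ∀ u ∈ A, 2 * b x + G u ≤ 2 * N) :
    6 * ((w : ℤ) * (A.card * N + ∑ x ∈ A, G x) + (w + 2 * d) * (A'.card * N + ∑ x ∈ A', G x) +
      (Mx.card * (w * N) + 2 * d * ∑ x ∈ Mx, b x)) ≤ 7 * N ^ 3 + 6 * N ^ 2 + 2 * N := by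
  obtain ⟨f, hf1, hf2⟩ := exists_sorted G A.card A rfl
  obtain ⟨g, hg1, hg2⟩ := exists_sorted G A'.card A' rfl
  obtain ⟨a, ha⟩ : ∃ a, a = A.card := ⟨_, rfl⟩
  obtain ⟨a', ha'⟩ : ∃ a, a = A'.card := ⟨_, rfl⟩
  obtain ⟨v, hv⟩ : ∃ v, v = Mx.card := ⟨_, rfl⟩
  rw [← ha] at hf1 hf2 hcard hdiff ⊢
  rw [← ha'] at hg1 hg2 hcard hdiff ⊢
  rw [← hv] at hcard ⊢
  have hwv : w = v + 2 * a' := by omega
  have hmass : w * a = v * d + (w + 2 * d) * a' := by
    rw [hdiff, hwv]; ring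
  have hw' : 0 < w + 2 * d := by omega
  obtain ⟨m, hm⟩ : ∃ m, m = (w + 2 * d) * a' := ⟨_, rfl⟩
  rw [← hm] at hmass
  have F1 : (w : ℤ) * ∑ x ∈ A, G x = ∑ k ∈ Finset.range (v * d), f (k / w) +
      ∑ k ∈ Finset.range m, f ((v * d + k) / w) := by
    rw [hf1, ← sum_div f hw a, hmass, Finset.sum_range_add]
  have G1 : ((w : ℤ) + 2 * d) * ∑ x ∈ A', G x = ∑ k ∈ Finset.range m, g (k / (w + 2 * d)) := by
    rw [hg1, hm, sum_div g hw' a']
    push_cast
    ring
  -- the cap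
  have C1 : 2 * (d : ℤ) * ∑ x ∈ Mx, b x + ∑ k ∈ Finset.range (v * d), f (k / w) ≤
      2 * N * (v * d) := by
    have h1 : ∀ x ∈ Mx, 2 * ((v : ℤ) * d) * b x + ∑ k ∈ Finset.range (v * d), f (k / w) ≤
        2 * N * (v * d) := by
      intro x hx
      have h2 : ∑ k ∈ Finset.range (v * d), (2 * b x + f (k / w)) ≤
          ∑ k ∈ Finset.range (v * d), 2 * N := by
        refine Finset.sum_le_sum fun k hk => ?_
        have hk' := Finset.mem_range.1 hk
        have h3 : k / w < a := Nat.div_lt_of_lt_mul (by rw [hmass]; omega)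
        obtain ⟨U, hU, hUc, hUf⟩ := hf2 _ h3
        have hne : U.Nonempty := by rw [← Finset.card_pos, hUc]; exact Nat.succ_pos _
        obtain ⟨u, hu⟩ := hne
        have h4 := cap x hx u (hU hu)
        have h5 := hUf u hu
        linarith
      rw [Finset.sum_add_distrib] at h2
      simp only [Finset.sum_const, Finset.card_range, nsmul_eq_mul] at h2
      push_cast at h2
      linarith
    rcases Nat.eq_zero_or_pos v with h0 | h0
    · have h2 : Mx = ∅ := by rw [← Finset.card_eq_zero]; omega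
      rw [h2, h0]
      simp
    · have h2 := Finset.sum_le_sum h1
      rw [Finset.sum_add_distrib, ← Finset.mul_sum] at h2
      simp only [Finset.sum_const, nsmul_eq_mul] at h2
      rw [← hv] at h2
      have h3 : (0 : ℤ) < v := by exact_mod_cast h0
      have h4 : (v : ℤ) * (2 * (d : ℤ) * ∑ x ∈ Mx, b x + ∑ k ∈ Finset.range (v * d), f (k / w)) ≤
          v * (2 * N * (v * d)) := by linarith
      exact le_of_mul_le_mul_left h4 h3
  -- units
  have wR : (0 : ℝ) < w := by exact_mod_cast hw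
  have dR : (0 : ℝ) ≤ d := by positivity
  have vR : (0 : ℝ) ≤ v := by positivity
  have aR : (0 : ℝ) ≤ a' := by positivity
  have wR' : (0 : ℝ) < w + 2 * d := by linarith
  have NR : (N : ℝ) = w + d := by rw [hNw]; push_cast; ring
  have key : ∀ k ∈ Finset.range m, (((f ((v * d + k) / w) + g (k / (w + 2 * d)) : ℤ)) : ℝ) ≤
      ((2 / 3 * (((w : ℝ) + d) - v * d / w) + 2) - (2 / 3 * (1 / (w : ℝ) + 1 / (w + 2 * d))) * k) +
        max 0 (((4 / (w : ℝ) - 3 / (w + 2 * d)) / 9) * k -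
          (((w : ℝ) + d) / 2 - 4 * (v * d) / w) / 9) := by
    intro k hk
    have hk' := Finset.mem_range.1 hk
    obtain ⟨i, hi⟩ : ∃ i, i = (v * d + k) / w := ⟨_, rfl⟩
    obtain ⟨j, hj⟩ : ∃ j, j = k / (w + 2 * d) := ⟨_, rfl⟩
    have hia : i < a := by
      rw [hi]; exact Nat.div_lt_of_lt_mul (by rw [hmass]; omega)
    have hja : j < a' := by
      rw [hj]; exact Nat.div_lt_of_lt_mul (by rw [← hm]; exact hk')
    have hij : j ≤ i := by
      rw [hi, hj]
      calc k / (w + 2 * d) ≤ k / w := Nat.div_le_div_left (by omega) hw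
        _ ≤ (v * d + k) / w := Nat.div_le_div_right (by omega)
    have hi1 : v * d + k < w * (i + 1) := by rw [hi]; exact Nat.lt_mul_div_succ _ hw
    have hj1 : k < (w + 2 * d) * (j + 1) := by rw [hj]; exact Nat.lt_mul_div_succ _ hw'
    have hx : ((v : ℝ) * d + k) / w ≤ ((i + 1 : ℤ) : ℝ) := by
      rw [div_le_iff₀ wR]
      have : ((v * d + k : ℕ) : ℝ) ≤ ((w * (i + 1) : ℕ) : ℝ) := by exact_mod_cast hi1.le
      push_cast at this ⊢
      linarith
    have hy : (k : ℝ) / (w + 2 * d) ≤ ((j + 1 : ℤ) : ℝ) := by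
      rw [div_le_iff₀ wR']
      have : ((k : ℕ) : ℝ) ≤ (((w + 2 * d) * (j + 1) : ℕ) : ℝ) := by exact_mod_cast hj1.le
      push_cast at this ⊢
      linarith
    have hxa : ((v : ℝ) * d + k) / w ≤ a := by
      rw [div_le_iff₀ wR]
      have : ((v * d + k : ℕ) : ℝ) ≤ ((w * a : ℕ) : ℝ) := by
        exact_mod_cast (by rw [hmass]; omega : v * d + k ≤ w * a)
      push_cast at this
      linarith
    have hya : (k : ℝ) / (w + 2 * d) ≤ a' := by
      rw [div_le_iff₀ wR']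
      have : ((k : ℕ) : ℝ) ≤ (((w + 2 * d) * a' : ℕ) : ℝ) := by
        exact_mod_cast (by rw [← hm]; exact hk'.le : k ≤ (w + 2 * d) * a')
      push_cast at this
      linarith
    have hxy : ((v : ℝ) * d + k) / w + (k : ℝ) / (w + 2 * d) ≤ N := by
      have : ((a + a' : ℕ) : ℝ) ≤ ((w + d : ℕ) : ℝ) := by exact_mod_cast (by omega : a + a' ≤ w + d)
      push_cast at this
      rw [NR]
      linarith
    have hlev : 1 ≤ f i + g j → 3 * (f i + g j) ≤ 2 * (N - (i + 1 : ℤ) - (j + 1 : ℤ)) + 6 ∨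
        9 * (f i + g j) ≤ 2 * (N - (i + 1 : ℤ) - (j + 1 : ℤ)) + 7 * (K - (i + 1 : ℤ)) + 15 ∨
        9 * (f i + g j) ≤ 2 * (N - (i + 1 : ℤ) - (j + 1 : ℤ)) + 7 * (K - (j + 1 : ℤ)) + 15 := by
      intro ht
      obtain ⟨U, hU, hUc, hUf⟩ := hf2 i hia
      obtain ⟨L, hL, hLc, hLg⟩ := hg2 j hja
      exact level2 hN (fun x hx => hA x (hU hx))
          (fun x hx => hA' x (hL hx)) (fun x hx hx' => hAA x (hU hx) (hL hx'))
          (by rw [hUc]; push_cast; ring) (by rw [hLc]; push_cast; ring) (by omega) (by omega) ht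
          (fun x hx y hy => add_le_add (hUf x hx) (hLg y hy))
          (fun x hx y hy => two x (hU hx) y (hL hy))
          (fun x1 hx1 y1 hy1 y2 hy2 x2 hx2 => four x1 (hU hx1) y1 (hL hy1) y2 (hL hy2) x2 (hU hx2))
          (fun x1 hx1 y1 hy1 y2 hy2 x2 hx2 => four' x1 (hL hx1) y1 (hU hy1) y2 (hU hy2) x2 (hL hx2))
          (fun x1 hx1 y hy x2 hx2 => three x1 (hU hx1) y (hL hy) x2 (hU hx2))
          (fun x1 hx1 y hy x2 hx2 => three' x1 (hL hx1) y (hU hy) x2 (hL hx2))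
    rw [← hi, ← hj]
    have H := unit_bound (t := f i + g j) hN (by omega : ((j : ℤ) + 1) ≤ ((i : ℤ) + 1)) hx hy hxy hlev
    refine H.trans (le_of_eq ?_)
    rw [NR]
    congr 1
    · field_simp
      ring
    · congr 1
      field_simp
      ring
  have S1 : (((∑ k ∈ Finset.range m, f ((v * d + k) / w) +
      ∑ k ∈ Finset.range m, g (k / (w + 2 * d)) : ℤ)) : ℝ) ≤
      ((2 / 3 * (((w : ℝ) + d) - v * d / w) + 2) * ((w + 2 * d) * a') -
        (2 / 3 * (1 / (w : ℝ) + 1 / (w + 2 * d))) *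
          (((w + 2 * d) * a') * ((w + 2 * d) * a' - 1) / 2)) +
        (w + d) * (7 * d - v) ^ 2 / 72 := by
    rw [← Finset.sum_add_distrib]
    push_cast
    have h1 := Finset.sum_le_sum key
    rw [Finset.sum_add_distrib, sum_lin] at h1
    have h2 : 0 < (4 / (w : ℝ) - 3 / (w + 2 * d)) / 9 := by
      have : (4 / (w : ℝ) - 3 / (w + 2 * d)) / 9 = (w + 8 * d) / (9 * w * (w + 2 * d)) := by
        field_simp
        ring
      rw [this]
      positivity
    have h3 := sum_max (be := (((w : ℝ) + d) / 2 - 4 * (v * d) / w) / 9) h2 m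
    have hmR : (m : ℝ) = (w + 2 * d) * a' := by rw [hm]; push_cast; ring
    have h4 := quad_part (w := w) (d := d) (v := v) (a := a') wR dR
      (by have : (w : ℝ) = ((v + 2 * a' : ℕ) : ℝ) := by exact_mod_cast hwv
          rw [this]; push_cast; ring)
    rw [hmR] at h1 h3
    push_cast at h1
    linarith
  have FI := final_ineq (w := w) (d := d) (v := v) (a := a') wR dR vR aR
      (by have : (w : ℝ) = ((v + 2 * a' : ℕ) : ℝ) := by exact_mod_cast hwv
          rw [this]; push_cast; ring)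
  -- assembly
  have tot : (w : ℤ) * (a * N + ∑ x ∈ A, G x) + (w + 2 * d) * (a' * N + ∑ x ∈ A', G x) +
      (v * (w * N) + 2 * d * ∑ x ∈ Mx, b x) ≤ N ^ 3 + N * d * (v - d) +
      (∑ k ∈ Finset.range m, f ((v * d + k) / w) + ∑ k ∈ Finset.range m, g (k / (w + 2 * d))) := by
    have h1 : (w : ℤ) * (a * N + ∑ x ∈ A, G x) + (w + 2 * d) * (a' * N + ∑ x ∈ A', G x) +
      (v * (w * N) + 2 * d * ∑ x ∈ Mx, b x) = (w * a + (w + 2 * d) * a' + v * w) * N +
        (w : ℤ) * ∑ x ∈ A, G x + (w + 2 * d) * ∑ x ∈ A', G x + 2 * d * ∑ x ∈ Mx, b x := by ring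
    rw [h1, F1, G1]
    have h2 : ((w : ℤ) * a + (w + 2 * d) * a' + v * w) * N + 2 * N * (v * d) =
        N ^ 3 + N * d * (v - d) := by
      have e1 : (a : ℤ) = a' + d := by exact_mod_cast hdiff
      have e2 : (w : ℤ) = v + 2 * a' := by exact_mod_cast hwv
      rw [hNw, e1, e2]
      ring
    linarith
  have totR : ((((w : ℤ) * (a * N + ∑ x ∈ A, G x) + (w + 2 * d) * (a' * N + ∑ x ∈ A', G x) +
      (v * (w * N) + 2 * d * ∑ x ∈ Mx, b x) : ℤ)) : ℝ) ≤ ((N ^ 3 + N * d * (v - d) +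
      (∑ k ∈ Finset.range m, f ((v * d + k) / w) + ∑ k ∈ Finset.range m, g (k / (w + 2 * d))) : ℤ) : ℝ) := by
    exact_mod_cast tot
  have fin : (((6 * ((w : ℤ) * (a * N + ∑ x ∈ A, G x) + (w + 2 * d) * (a' * N + ∑ x ∈ A', G x) +
      (v * (w * N) + 2 * d * ∑ x ∈ Mx, b x)) : ℤ)) : ℝ) ≤ ((7 * N ^ 3 + 6 * N ^ 2 + 2 * N : ℤ) : ℝ) := by
    push_cast at totR S1 ⊢
    rw [NR] at totR ⊢
    linarith
  exact_mod_cast fin

lemma opp_pair {N : ℤ} {c : ℤ → ℤ → ℤ} (hN : 0 ≤ N) (z : ∀ v, c v 0 = 0) {u v : ℤ}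
    (h : |u - v| = N) (o : Opp |u - v| (c u) (c v)) : c u N + c v N ≤ N := by
  rw [h] at o
  have h1 := o.use 0 N 0 N hN (by ring) (by ring)
  rw [z, z] at h1
  linarith

/-- The theorem for a system of columns, `N + Δ` of them white. -/
theorem core2 {N K : ℤ} (hN : N = 2 * K) (hK : 0 ≤ K) {c : ℤ → ℤ → ℤ} {C : Finset ℤ}
    (hC : C ⊆ Finset.Ico 0 (2 * N)) {w d : ℕ} (hNw : N = w + d) (hCc : (C.card : ℤ) = N + d)
    (lip : ∀ v, Lip (c v)) (z : ∀ v, c v 0 = 0)
    (opp : ∀ u ∈ C, ∀ v, 0 ≤ v → v < 2 * N → v ∉ C → Opp |u - v| (c u) (c v)) :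
    6 * ((w : ℤ) * ∑ v ∈ Finset.Ico 0 (2 * N), (if v ∈ C then c v N else 0) +
      (w + 2 * d) * ∑ v ∈ Finset.Ico 0 (2 * N), (if v ∈ C then 0 else c v N)) ≤
      7 * N ^ 3 + 6 * N ^ 2 + 2 * N := by
  classical
  have hN0 : 0 ≤ N := by omega
  rcases Nat.eq_zero_or_pos w with hw | hw
  · -- all columns are white
    have h1 : C = Finset.Ico 0 (2 * N) := by
      refine Finset.eq_of_subset_of_card_le hC ?_
      rw [Int.card_Ico]
      omega
    have h2 : ∑ v ∈ Finset.Ico 0 (2 * N), (if v ∈ C then 0 else c v N) = 0 := by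
      refine Finset.sum_eq_zero fun v hv => ?_
      rw [if_pos (by rw [h1]; exact hv)]
    rw [h2, hw]
    push_cast
    have : 0 ≤ N ^ 3 := by positivity
    have : 0 ≤ N ^ 2 := by positivity
    linarith
  set A := (Finset.Ico 0 N).filter (fun x => x ∈ C ∧ x + N ∈ C) with hA
  set A' := (Finset.Ico 0 N).filter (fun x => x ∉ C ∧ x + N ∉ C) with hA'
  set Mx := (Finset.Ico 0 N).filter (fun x => ¬ (x ∈ C ∧ x + N ∈ C) ∧ ¬ (x ∉ C ∧ x + N ∉ C))
    with hMx
  have bA : ∀ x ∈ A, 0 ≤ x ∧ x < N := by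
    intro x hx
    simp only [hA, Finset.mem_filter, Finset.mem_Ico] at hx
    exact hx.1
  have bA' : ∀ x ∈ A', 0 ≤ x ∧ x < N := by
    intro x hx
    simp only [hA', Finset.mem_filter, Finset.mem_Ico] at hx
    exact hx.1
  have hAA : ∀ x ∈ A, x ∉ A' := by
    intro x hx hx'
    simp only [hA, hA', Finset.mem_filter, Finset.mem_Ico] at hx hx'
    exact hx'.2.1 hx.2.1
  have hAA' : ∀ x ∈ A', x ∉ A := fun x hx hx' => hAA x hx' hx
  have anti : ∀ x ∈ A, ∀ y ∈ A', Anti N c x y := by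
    intro x hx y hy
    have b1 := bA x hx
    have b2 := bA' y hy
    simp only [hA, hA', Finset.mem_filter, Finset.mem_Ico] at hx hy
    exact ⟨opp x hx.2.1 y (by omega) (by omega) hy.2.1,
      opp x hx.2.1 (y + N) (by omega) (by omega) hy.2.2,
      opp (x + N) hx.2.2 y (by omega) (by omega) hy.2.1,
      opp (x + N) hx.2.2 (y + N) (by omega) (by omega) hy.2.2⟩
  have anti' : ∀ x ∈ A', ∀ y ∈ A, Anti N c x y := fun x hx y hy => (anti y hy x hx).symm
  -- the black column of a mixed pair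
  obtain ⟨b, hb⟩ : ∃ b : ℤ → ℤ, b = fun x => if x ∈ C then c (x + N) N else c x N := ⟨_, rfl⟩
  have hcap : ∀ x ∈ Mx, ∀ u ∈ A, 2 * b x + GG N c u ≤ 2 * N := by
    intro x hx u hu
    have b1 := bA u hu
    simp only [hMx, hA, Finset.mem_filter, Finset.mem_Ico] at hx hu
    rw [hb]
    by_cases h3 : x ∈ C
    · have h4 : x + N ∉ C := fun h4 => hx.2.1 ⟨h3, h4⟩
      simp only [if_pos h3]
      exact cap_of lip z b1.1 b1.2 (by omega) (by omega)
        (opp u hu.2.1 (x + N) (by omega) (by omega) h4)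
        (opp (u + N) hu.2.2 (x + N) (by omega) (by omega) h4)
    · simp only [if_neg h3]
      exact cap_of lip z b1.1 b1.2 (by omega) (by omega)
        (opp u hu.2.1 x (by omega) (by omega) h3)
        (opp (u + N) hu.2.2 x (by omega) (by omega) h3)
  -- cardinalities
  have hIN : (((N - 0).toNat : ℕ) : ℤ) = N := by omega
  have hc1 : (A.card : ℤ) + A'.card + Mx.card = N := by
    have h2 : ∀ x ∈ Finset.Ico 0 N, (1 : ℤ) = (if x ∈ C ∧ x + N ∈ C then (1 : ℤ) else 0) +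
        (if x ∉ C ∧ x + N ∉ C then (1 : ℤ) else 0) +
        (if ¬ (x ∈ C ∧ x + N ∈ C) ∧ ¬ (x ∉ C ∧ x + N ∉ C) then (1 : ℤ) else 0) := by
      intro x _
      by_cases h3 : x ∈ C <;> by_cases h4 : x + N ∈ C <;> simp [h3, h4]
    have h3 := Finset.sum_congr rfl h2
    rw [Finset.sum_add_distrib, Finset.sum_add_distrib, ← Finset.sum_filter,
      ← Finset.sum_filter, ← Finset.sum_filter, ← hA, ← hA', ← hMx] at h3
    simp only [Finset.sum_const, nsmul_eq_mul, mul_one, Int.card_Ico] at h3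
    omega
  have hc2 : (A.card : ℤ) = A'.card + d := by
    have h1 : (C.card : ℤ) = ∑ v ∈ Finset.Ico 0 (2 * N), (if v ∈ C then (1 : ℤ) else 0) := by
      rw [← Finset.sum_filter, Finset.filter_mem_eq_inter, Finset.inter_eq_right.2 hC]
      simp
    rw [sum_pairs hN0] at h1
    have h2 : ∀ x ∈ Finset.Ico 0 N, ((if x ∈ C then (1 : ℤ) else 0) +
        (if x + N ∈ C then (1 : ℤ) else 0)) = 1 + (if x ∈ C ∧ x + N ∈ C then (1 : ℤ) else 0) -
        (if x ∉ C ∧ x + N ∉ C then (1 : ℤ) else 0) := by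
      intro x _
      by_cases h3 : x ∈ C <;> by_cases h4 : x + N ∈ C <;> simp [h3, h4]
    rw [Finset.sum_congr rfl h2, Finset.sum_sub_distrib, Finset.sum_add_distrib,
      ← Finset.sum_filter, ← Finset.sum_filter, ← hA, ← hA'] at h1
    simp only [Finset.sum_const, nsmul_eq_mul, mul_one, Int.card_Ico] at h1
    omega
  have main := sum_core (b := b) hN hw hNw bA bA' hAA (two_of lip z bA bA' hAA anti)
    (four2_of hN lip z bA bA' hAA anti) (four2_of hN lip z bA' bA hAA' anti')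
    (three_of lip z bA bA' anti) (three_of lip z bA' bA anti') (by omega) (by omega) hcap
  -- the total
  rw [sum_pairs hN0, sum_pairs hN0]
  have h6 : ∀ x ∈ Finset.Ico 0 N,
      (w : ℤ) * ((if x ∈ C then c x N else 0) + (if x + N ∈ C then c (x + N) N else 0)) +
      (w + 2 * d) * ((if x ∈ C then 0 else c x N) + (if x + N ∈ C then 0 else c (x + N) N)) ≤
      (w : ℤ) * (if x ∈ C ∧ x + N ∈ C then N + GG N c x else 0) +
        (w + 2 * d) * (if x ∉ C ∧ x + N ∉ C then N + GG N c x else 0) +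
        (if ¬ (x ∈ C ∧ x + N ∈ C) ∧ ¬ (x ∉ C ∧ x + N ∉ C) then w * N + 2 * d * b x else 0) := by
    intro x hx
    rw [Finset.mem_Ico] at hx
    have hw0 : (0 : ℤ) ≤ w := by positivity
    by_cases h3 : x ∈ C <;> by_cases h4 : x + N ∈ C
    · simp only [h3, h4, and_self, not_true_eq_false, if_true, if_false, and_false, false_and,
        mul_zero, add_zero]
      unfold GG; linarith
    · simp only [h3, h4, and_false, not_true_eq_false, not_false_eq_true, and_true, if_false,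
        if_true, and_self, hb, mul_zero, add_zero, zero_add, false_and]
      have h8 := opp_pair hN0 z (by rw [abs_of_nonpos (by omega)]; ring)
        (opp x h3 (x + N) (by omega) (by omega) h4)
      nlinarith
    · simp only [h3, h4, and_false, not_true_eq_false, not_false_eq_true, and_true, if_false,
        if_true, and_self, hb, mul_zero, add_zero, zero_add, false_and]
      have h8 := opp_pair hN0 z (by rw [abs_of_nonneg (by omega)]; ring)
        (opp (x + N) h4 x (by omega) (by omega) h3)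
      nlinarith
    · simp only [h3, h4, and_self, not_true_eq_false, not_false_eq_true, if_true, if_false,
        and_false, false_and, mul_zero, add_zero, zero_add]
      unfold GG; linarith
  have h7 := Finset.sum_le_sum h6
  have sA : ∀ S : Finset ℤ, ∑ x ∈ S, (N + GG N c x) = S.card * N + ∑ x ∈ S, GG N c x := by
    intro S
    rw [Finset.sum_add_distrib]
    simp only [Finset.sum_const, nsmul_eq_mul]
  have sM : ∑ x ∈ Mx, ((w : ℤ) * N + 2 * d * b x) = Mx.card * (w * N) + 2 * d * ∑ x ∈ Mx, b x := by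
    rw [Finset.sum_add_distrib, Finset.sum_const, nsmul_eq_mul, Finset.mul_sum]
  rw [Finset.sum_add_distrib, Finset.sum_add_distrib, Finset.sum_add_distrib, ← Finset.mul_sum,
    ← Finset.mul_sum, ← Finset.mul_sum, ← Finset.mul_sum, ← Finset.sum_filter,
    ← Finset.sum_filter, ← Finset.sum_filter, ← hA, ← hA', ← hMx, sA, sA, sM] at h7
  linarith

end Pool.Agent.Lib.MP_2d7a7c_co.PQ
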